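import Pool.Agent.H301Z.FdF.LemY

set_option autoImplicit false

namespace Pool.Agent.H301Z.FdF

theorem ar_t1 {x a : ℝ} (h0 : 0 ≤ x) (h1 : x ≤ a / 2) (h2 : 2243 / 10000 ≤ a) :
    2243 / 10000 * x ≤ 2 * (x * (a - x)) := by
  have : x * (2243 / 10000) ≤ x * (2 * (a - x)) := mul_le_mul_of_nonneg_left (by linarith) h0
  linarith

theorem ar_t2 {x a : ℝ} (h0 : x ≤ a) (h1 : a / 2 ≤ x) (h2 : 2243 / 10000 ≤ a) :
    2243 / 10000 * (a - x) ≤ 2 * (x * (a - x)) := by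
  have := ar_t1 (x := a - x) (a := a) (by linarith) (by linarith) h2
  linarith

theorem ar_two {a b x y z c db : ℝ} (ha : 2243 / 10000 ≤ a) (hb : 2243 / 10000 ≤ b)
    (hab : 5576 / 10000 ≤ a + b) (hd : db ≤ 1 / 3) (hx : x ≤ a) (hy : y ≤ b) (hz : 0 ≤ z)
    (hz' : z ≤ c) (hx2 : a / 2 ≤ x) (hy2 : b / 2 ≤ y)
    (h : 2 * (x * (a - x)) + 2 * (y * (b - y)) + 2 * (z * (c - z)) + (x + y + z - db) ^ 2
      ≤ 228 / 10000) : False := by
  have k1 := ar_t2 hx hx2 ha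
  have k2 := ar_t2 hy hy2 hb
  have k3 : 0 ≤ z * (c - z) := mul_nonneg hz (by linarith)
  have k4 := sq_nonneg (x + y + z - db)
  obtain ⟨w, hw⟩ : ∃ w, w = (a - x) + (b - y) := ⟨_, rfl⟩
  have w0 : 0 ≤ w := by linarith
  have w1 : w ≤ 1017 / 10000 := by linarith
  have k5 : (2242 / 10000 - w) ^ 2 ≤ (x + y + z - db) ^ 2 :=
    pow_le_pow_left₀ (by linarith) (by linarith) 2
  have k6 := sq_nonneg w
  nlinarith

theorem ar_vertex {a b c x y z db : ℝ} (hs : a + b + c = 1) (ha : 2243 / 10000 ≤ a)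
    (hb : 2243 / 10000 ≤ b) (hc : 2243 / 10000 ≤ c) (hb' : b ≤ 44235 / 100000)
    (hc' : c ≤ 44235 / 100000)
    (hd : db ≤ 1 / 3) (hd' : 1 / 3 - 64 / 10000 ≤ db) (hx : x ≤ a) (hy : y ≤ b) (hz : z ≤ c)
    (hx0 : 0 ≤ x) (hy0 : 0 ≤ y) (hz0 : 0 ≤ z) (l1 : a - 2 * x ≤ b - 2 * y)
    (l2 : a - 2 * x ≤ c - 2 * z)
    (h : 2 * (x * (a - x)) + 2 * (y * (b - y)) + 2 * (z * (c - z)) + (x + y + z - db) ^ 2
      ≤ 228 / 10000) : a - x ≤ 41 / 1000 ∧ y + z ≤ 6 / 100 := by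
  have hA : a / 2 ≤ x := by
    by_contra hh
    push Not at hh
    have k1 := ar_t1 hx0 hh.le ha
    have k2 := ar_t1 hy0 (show y ≤ b / 2 by linarith) hb
    have k3 := ar_t1 hz0 (show z ≤ c / 2 by linarith) hc
    have k4 := sq_nonneg (x + y + z - db)
    have k5 : (225 / 1000 : ℝ) ^ 2 ≤ (db - (x + y + z)) ^ 2 :=
      pow_le_pow_left₀ (by norm_num) (by linarith) 2
    have k6 : (db - (x + y + z)) ^ 2 = (x + y + z - db) ^ 2 := by ring
    norm_num at k5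
    linarith
  have hB : y ≤ b / 2 := by
    by_contra hh
    push Not at hh
    exact ar_two ha hb (by linarith) hd hx hy hz0 hz hA hh.le h
  have hC : z ≤ c / 2 := by
    by_contra hh
    push Not at hh
    exact ar_two (c := b) (z := y) ha hc (by linarith) hd hx hz hy0 hy hA hh.le
      (by have : (x + z + y - db) = (x + y + z - db) := by ring
          rw [this]; linarith)
  have k1 := ar_t2 hx hA ha
  have k2 := ar_t1 hy0 hB hb
  have k3 := ar_t1 hz0 hC hc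
  have k4 := sq_nonneg (x + y + z - db)
  obtain ⟨p, hp⟩ : ∃ p, p = a - x := ⟨_, rfl⟩
  have p0 : 0 ≤ p := by linarith
  have e : 2 * (x * (a - x)) + 2 * (y * (b - y)) + 2 * (z * (c - z)) + (x + y + z - db) ^ 2
      = 2 * (p * db) + 2 * (y * (a + b - db)) + 2 * (z * (a + c - db)) + (a - db) ^ 2
        + 4 * (y * z) - (p + y + z) ^ 2 := by
    rw [hp]; ring
  have m1 : p * (3269 / 10000) ≤ p * db := mul_le_mul_of_nonneg_left (by linarith) p0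
  have m2 : y * (2243 / 10000) ≤ y * (a + b - db) := mul_le_mul_of_nonneg_left (by linarith) hy0
  have m3 : z * (2243 / 10000) ≤ z * (a + c - db) := mul_le_mul_of_nonneg_left (by linarith) hz0
  have m4 := sq_nonneg (a - db)
  have m5 := mul_nonneg hy0 hz0
  obtain ⟨w, hw⟩ : ∃ w, w = p + y + z := ⟨_, rfl⟩
  rw [← hw] at e
  have w1 : w ≤ 1017 / 10000 := by linarith
  have w0 : 0 ≤ w := by linarith
  have w2 : w ≤ 6 / 100 := by
    by_contra hh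
    push Not at hh
    have := mul_nonneg (show 0 ≤ w - 6 / 100 by linarith) (show 0 ≤ 1017 / 10000 - w by linarith)
    nlinarith
  have w3 : w ^ 2 ≤ (6 / 100) ^ 2 := pow_le_pow_left₀ w0 w2 2
  norm_num at w3
  constructor <;> linarith

theorem ar_box {a b c : ℝ} (hs : a + b + c = 1) (h : a ^ 2 + b ^ 2 + c ^ 2 ≤ 1 / 3 + 178 / 10000) :
    1 / 3 - 109 / 1000 ≤ a ∧ a ≤ 1 / 3 + 109 / 1000 := by
  have k : (a - 1 / 3) ^ 2 ≤ (109 / 1000) ^ 2 := by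
    have hc : c = 1 - a - b := by linarith
    subst hc
    nlinarith [sq_nonneg (b - (1 - a - b))]
  have := abs_le_of_sq_le_sq' k (by norm_num)
  constructor <;> linarith [this.1, this.2]

theorem ar_final {g p y δ Z : ℝ} (g0 : 0 ≤ g) (g1 : g ≤ 967 / 10000) (p1 : p ≤ g ^ 2 / 4)
    (hy : y = g - g ^ 2 + p - δ) (Z0 : 0 ≤ Z) (Z1 : 0 ≤ y → 2 * y ^ 3 ≤ Z) :
    3 * (g * p) - 3 * (g ^ 2 - p) ^ 2 ≤ Z + 19 / 100 * δ ^ 2 := by
  have k1 : 3 / 2 * g ^ 2 * y - g ^ 3 / 2 ≤ Z := by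
    by_cases h : 0 ≤ y
    · have a1 := Z1 h
      have a2 : 0 ≤ 2 * (y - g / 2) ^ 2 * (y + g) := by positivity
      have a3 : 2 * (y - g / 2) ^ 2 * (y + g) = 2 * y ^ 3 - (3 / 2 * g ^ 2 * y - g ^ 3 / 2) := by ring
      linarith
    · push Not at h
      have a1 : 0 ≤ g ^ 2 * (-y) := mul_nonneg (sq_nonneg _) (by linarith)
      have a2 : 0 ≤ g ^ 3 := by positivity
      linarith
  have k2 : 3 / 2 * g ^ 2 * δ - 2961 / 1000 * g ^ 4 ≤ 19 / 100 * δ ^ 2 := by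
    have a1 := sq_nonneg (δ - 75 / 19 * g ^ 2)
    have a2 : 0 ≤ g ^ 4 := by positivity
    nlinarith
  obtain ⟨t, ht⟩ : ∃ t, t = g ^ 2 / 4 - p := ⟨_, rfl⟩
  have t0 : 0 ≤ t := by linarith
  have hp : p = g ^ 2 / 4 - t := by linarith
  have k3 : 0 ≤ g ^ 3 * (1 / 4 - 23985 / 10000 * g) + t * (3 * g + 3 * g ^ 2) + 3 * t ^ 2 := by
    have : 0 ≤ 1 / 4 - 23985 / 10000 * g := by linarith
    positivity
  have e : 3 / 2 * g ^ 2 * y - g ^ 3 / 2 + (3 / 2 * g ^ 2 * δ - 2961 / 1000 * g ^ 4)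
      - (3 * (g * p) - 3 * (g ^ 2 - p) ^ 2)
      = g ^ 3 * (1 / 4 - 23985 / 10000 * g) + t * (3 * g + 3 * g ^ 2) + 3 * t ^ 2 := by
    rw [hy, hp]; ring
  linarith

theorem ar_deg {d d0 c dA dB : ℝ} (h : d ≤ dA + dB + c) (hA : 0 ≤ dA) (hB : 0 ≤ dB)
    (hg : 0 ≤ d0 - c) : pp (d0 - c - dB) - 2 * (d0 - c) * dA ≤ (d - d0) ^ 2 := by
  obtain ⟨g, e⟩ : ∃ g, g = d0 - c := ⟨_, rfl⟩
  rw [← e] at hg ⊢
  have k0 := sq_nonneg (d - d0)
  have k1 : 0 ≤ g * dA := mul_nonneg hg hA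
  by_cases h1 : g - dB ≤ 0
  · have : pp (g - dB) = 0 := by unfold pp; rw [max_eq_right h1]; norm_num
    rw [this]; linarith
  push Not at h1
  rw [pp_of h1.le]
  by_cases h2 : g - dB ≤ dA
  · have : (g - dB) * (g - dB) ≤ g * dA := mul_le_mul (by linarith) h2 h1.le hg
    nlinarith
  · push Not at h2
    have a1 : (g - dB - dA) ^ 2 ≤ (d0 - d) ^ 2 := pow_le_pow_left₀ (by linarith) (by linarith) 2
    have a2 := mul_nonneg hA hB
    have a3 := sq_nonneg dA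
    nlinarith

end Pool.Agent.H301Z.FdF
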