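import Mathlib

set_option autoImplicit false
open Finset

namespace Pool.Agent.H301Z.FdF

variable {V : Type} [Fintype V]

/-- weighted sum -/
noncomputable def E (μ : V → ℝ) (f : V → ℝ) : ℝ := ∑ x, μ x * f x

theorem E_add (μ f g : V → ℝ) : E μ (fun x => f x + g x) = E μ f + E μ g := by
  simp only [E, mul_add, sum_add_distrib]

theorem E_sub (μ f g : V → ℝ) : E μ (fun x => f x - g x) = E μ f - E μ g := by
  simp only [E, mul_sub, sum_sub_distrib]

theorem E_neg (μ f : V → ℝ) : E μ (fun x => - f x) = - E μ f := by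
  simp only [E, mul_neg, sum_neg_distrib]

theorem E_ml (μ f : V → ℝ) (c : ℝ) : E μ (fun x => c * f x) = c * E μ f := by
  simp only [E, mul_sum]
  exact sum_congr rfl fun x _ => by ring

theorem E_mr (μ f : V → ℝ) (c : ℝ) : E μ (fun x => f x * c) = E μ f * c := by
  simp only [E, sum_mul]
  exact sum_congr rfl fun x _ => by ring

theorem E_div (μ f : V → ℝ) (c : ℝ) : E μ (fun x => f x / c) = E μ f / c := by
  simp only [div_eq_mul_inv, E_mr]

theorem E_const' (μ : V → ℝ) (c : ℝ) : E μ (fun _ => c) = (∑ x, μ x) * c := by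
  simp only [E, sum_mul]

theorem E_const {μ : V → ℝ} (h : ∑ x, μ x = 1) (c : ℝ) : E μ (fun _ => c) = c := by
  rw [E_const', h, one_mul]

theorem E_zero (μ : V → ℝ) : E μ (fun _ => 0) = 0 := by
  simp [E]

theorem E_comm (μ ν : V → ℝ) (F : V → V → ℝ) :
    E μ (fun x => E ν (fun y => F x y)) = E ν (fun y => E μ (fun x => F x y)) := by
  simp only [E, mul_sum]
  rw [sum_comm]
  exact sum_congr rfl fun y _ => sum_congr rfl fun x _ => by ring

theorem E_congr (μ : V → ℝ) {f g : V → ℝ} (h : ∀ x, f x = g x) : E μ f = E μ g := by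
  rw [show f = g from funext h]

theorem E_mono {μ : V → ℝ} (hμ : ∀ x, 0 ≤ μ x) {f g : V → ℝ} (h : ∀ x, 0 < μ x → f x ≤ g x) :
    E μ f ≤ E μ g := by
  refine sum_le_sum fun x _ => ?_
  rcases (hμ x).eq_or_lt with h0 | h0
  · rw [← h0]; simp
  · exact mul_le_mul_of_nonneg_left (h x h0) h0.le

theorem E_le {μ : V → ℝ} (hμ : ∀ x, 0 ≤ μ x) {f g : V → ℝ} (h : ∀ x, f x ≤ g x) :
    E μ f ≤ E μ g := E_mono hμ fun x _ => h x

theorem E_nonneg {μ : V → ℝ} (hμ : ∀ x, 0 ≤ μ x) {f : V → ℝ} (h : ∀ x, 0 ≤ f x) :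
    0 ≤ E μ f := sum_nonneg fun x _ => mul_nonneg (hμ x) (h x)

theorem E_nonneg' {μ : V → ℝ} (hμ : ∀ x, 0 ≤ μ x) {f : V → ℝ} (h : ∀ x, 0 < μ x → 0 ≤ f x) :
    0 ≤ E μ f := by
  have := E_mono hμ (f := fun _ => 0) (g := f) h
  rwa [E_zero] at this

theorem E_mul_E (μ ν f g : V → ℝ) :
    E μ f * E ν g = E μ (fun x => E ν (fun y => f x * g y)) := by
  simp only [E_ml, E_mr]

theorem E_sum {ι : Type} (μ : V → ℝ) (s : Finset ι) (F : ι → V → ℝ) :
    E μ (fun x => ∑ k ∈ s, F k x) = ∑ k ∈ s, E μ (F k) := by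
  simp only [E, mul_sum]
  exact sum_comm

theorem E_wt (μ a f : V → ℝ) : E (fun x => μ x * a x) f = E μ (fun x => a x * f x) := by
  simp only [E, mul_assoc]

/-- Jensen for squares -/
theorem E_sq {μ : V → ℝ} (hμ : ∀ x, 0 ≤ μ x) (h1 : ∑ x, μ x = 1) (f : V → ℝ) :
    E μ f ^ 2 ≤ E μ (fun x => f x ^ 2) := by
  have h : 0 ≤ E μ (fun x => (f x - E μ f) ^ 2) := E_nonneg hμ fun x => sq_nonneg _
  have e : E μ (fun x => (f x - E μ f) ^ 2)
      = E μ (fun x => f x ^ 2 - (2 * E μ f) * f x + E μ f ^ 2) := E_congr μ fun x => by ring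
  rw [e, E_add, E_sub, E_ml, E_const h1] at h
  have e2 : E μ (fun x => f x) = E μ f := rfl
  rw [e2] at h
  nlinarith

section dec
variable [DecidableEq V]

/-- point mass -/
noncomputable def dl (u : V) (x : V) : ℝ := if x = u then 1 else 0

omit [Fintype V] in
theorem dl_self (u : V) : dl u u = 1 := by simp [dl]

omit [Fintype V] in
theorem dl_ne {u x : V} (h : x ≠ u) : dl u x = 0 := by simp [dl, h]

theorem E_dl (μ : V → ℝ) (u : V) (f : V → ℝ) : E μ (fun x => dl u x * f x) = μ u * f u := by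
  simp [E, dl]

theorem E_wsub (μ : V → ℝ) (u : V) (s t : ℝ) (f : V → ℝ) :
    E (fun x => s * μ x - t * dl u x) f = s * E μ f - t * f u := by
  simp only [E, sub_mul, sum_sub_distrib, mul_sum, mul_assoc]
  simp [dl]

theorem E_wsub1 (μ : V → ℝ) (u : V) (t : ℝ) (f : V → ℝ) :
    E (fun x => μ x - t * dl u x) f = E μ f - t * f u := by
  have := E_wsub μ u 1 t f
  simpa using this

theorem le_E {μ : V → ℝ} (hμ : ∀ x, 0 ≤ μ x) {f : V → ℝ} (h : ∀ x, 0 ≤ f x) (u : V) :
    μ u * f u ≤ E μ f :=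
  single_le_sum (f := fun x => μ x * f x) (fun x _ => mul_nonneg (hμ x) (h x)) (mem_univ u)

end dec

/-- an oriented graph without induced oriented four-cycles, by indicator functions -/
structure OG (V : Type) where
  r : V → V → ℝ
  n : V → V → ℝ
  r01 : ∀ x y, r x y = 0 ∨ r x y = 1
  n01 : ∀ x y, n x y = 0 ∨ n x y = 1
  tot : ∀ x y, r x y + r y x + n x y = 1
  c4 : ∀ a b c d, r a b = 1 → r b c = 1 → r c d = 1 → r d a = 1 → n a c = 1 → n b d = 1 → False

namespace OG
variable {W : Type} (G : OG W)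

theorem nsymm (x y : W) : G.n x y = G.n y x := by
  have := G.tot x y; have := G.tot y x; linarith

theorem r_nonneg (x y : W) : 0 ≤ G.r x y := by
  rcases G.r01 x y with h | h <;> rw [h] <;> norm_num

theorem r_le (x y : W) : G.r x y ≤ 1 := by
  rcases G.r01 x y with h | h <;> rw [h] <;> norm_num

theorem n_nonneg (x y : W) : 0 ≤ G.n x y := by
  rcases G.n01 x y with h | h <;> rw [h] <;> norm_num

theorem n_le (x y : W) : G.n x y ≤ 1 := by
  rcases G.n01 x y with h | h <;> rw [h] <;> norm_num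

theorem r_self (x : W) : G.r x x = 0 := by
  have := G.tot x x
  have := G.n_nonneg x x
  rcases G.r01 x x with h | h
  · exact h
  · linarith

theorem n_self (x : W) : G.n x x = 1 := by
  have := G.tot x x
  rw [G.r_self] at this
  linarith

/-- the three states of a pair -/
theorem cases3 (x y : W) :
    (G.r x y = 0 ∧ G.r y x = 0 ∧ G.n x y = 1) ∨ (G.r x y = 1 ∧ G.r y x = 0 ∧ G.n x y = 0) ∨
      (G.r x y = 0 ∧ G.r y x = 1 ∧ G.n x y = 0) := by
  have := G.tot x y
  rcases G.r01 x y with h | h <;> rcases G.r01 y x with h' | h' <;>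
    rcases G.n01 x y with h'' | h'' <;> first | (simp [h, h', h'']; done) | (exfalso; linarith)

/-- edge indicator of the associated triple system -/
noncomputable def e (x y z : W) : ℝ :=
  G.n x y * G.n x z + G.n x y * G.n y z + G.n x z * G.n y z - 2 * (G.n x y * G.n x z * G.n y z)
    + G.r x y * G.r x z + G.r y x * G.r y z + G.r z x * G.r z y

end OG

end Pool.Agent.H301Z.FdF
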