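import Pool.Agent.H301Z.FdF.Cert
import Pool.Agent.Results.MP_8cac16_co.DensityBound

set_option autoImplicit false
open Finset

namespace Pool.Agent.H301Z.FdF
open Pool.Agent.Helper533.Fdf Pool.Agent.Results.MP_8cac16_co.DensityBound

theorem bound49 {n : ℕ} (R : Fin n → Fin n → Prop) (h : IsOriented R) (hC : NoInducedC4 R) :
    2 / 27 * (n : ℝ) ^ 3 - (n : ℝ) ^ 2 / 2 ≤ ((fdf R).card : ℝ) := by
  have m := PP_ge (rl R) (pr_rl R h) (noC4_rl R h hC)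
  have p := PP_le R h
  rw [Fintype.card_fin] at m
  have p' : ((PP (rl R) : ℕ) : ℝ) ≤ ((6 * (fdf R).card + 3 * n ^ 2 : ℕ) : ℝ) := Nat.cast_le.mpr p
  push_cast at p'
  linarith

theorem asymp (ε : ℝ) (hε : ε > 0) : ∃ N : ℕ, ∀ n : ℕ, n ≥ N → ∀ R : Fin n → Fin n → Prop,
    IsOriented R → NoInducedC4 R → ((fdf R).card : ℝ) ≥ (4 / 9 - ε) * ((n.choose 3 : ℕ) : ℝ) := by
  obtain ⟨N, hN⟩ := exists_nat_gt (8 / ε)
  refine ⟨max N 4, fun n hn R h hC => ?_⟩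
  have hb := bound49 R h hC
  have hn4 : 4 ≤ n := (le_max_right _ _).trans hn
  have hnN : 8 / ε < (n : ℝ) := hN.trans_le (by exact_mod_cast (le_max_left _ _).trans hn)
  have h8 : 8 < ε * (n : ℝ) := by
    rw [div_lt_iff₀ hε] at hnN
    linarith
  have hch0 : ((n.choose 3 : ℕ) : ℝ) ≤ (n : ℝ) ^ 3 / 6 := by
    have h1 := Nat.choose_le_pow_div (α := ℝ) 3 n
    have h2 : ((Nat.factorial 3 : ℕ) : ℝ) = 6 := by norm_num [Nat.factorial]
    rw [h2] at h1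
    exact h1
  have hch : ((n.choose 3 : ℕ) : ℝ) = (n : ℝ) * (n - 1) * (n - 2) / 6 := by
    have h1 : n.choose 3 * 6 = n * (n - 1) * (n - 2) := by
      have := Nat.descFactorial_eq_factorial_mul_choose n 3
      have h2 : n.descFactorial 3 = (n - 2) * ((n - 1) * n) := by
        simp [Nat.descFactorial]
      rw [h2] at this
      have h3 : Nat.factorial 3 = 6 := rfl
      rw [h3] at this
      linarith
    have h4 : ((n.choose 3 * 6 : ℕ) : ℝ) = ((n * (n - 1) * (n - 2) : ℕ) : ℝ) := by rw [h1]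
    push_cast [Nat.cast_sub (show 1 ≤ n by omega), Nat.cast_sub (show 2 ≤ n by omega)] at h4
    linarith
  have hn4' : (4 : ℝ) ≤ n := by exact_mod_cast hn4
  have key : (n : ℝ) ^ 2 / 2 ≤ ε * ((n.choose 3 : ℕ) : ℝ) := by
    rw [hch]
    have e1 : 3 * (n : ℝ) ^ 2 / 8 ≤ (n - 1) * (n - 2) := by nlinarith
    have e2 : ε * ((n : ℝ) * (n - 1) * (n - 2) / 6) = ε * (n : ℝ) * ((n - 1) * (n - 2)) / 6 := by ring
    rw [e2]
    have e3 : 8 * (3 * (n : ℝ) ^ 2 / 8) ≤ ε * (n : ℝ) * ((n - 1) * (n - 2)) := by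
      apply mul_le_mul h8.le e1 (by positivity) (by positivity)
    linarith
  have : (4 / 9 - ε) * ((n.choose 3 : ℕ) : ℝ) =
      4 / 9 * ((n.choose 3 : ℕ) : ℝ) - ε * ((n.choose 3 : ℕ) : ℝ) := by ring
  rw [this]
  linarith

end Pool.Agent.H301Z.FdF
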