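import Pool.Agent.H301Z.FdF.Opt
import Pool.Agent.H301Z.FdF.S1
import Pool.Agent.H301Z.FdF.S2
import Pool.Agent.H301Z.FdF.S3

set_option autoImplicit false
set_option maxRecDepth 100000
open Finset

namespace Pool.Agent.H301Z.FdF
open Pool.Agent.Helper533.Fdf

def i0 (x : ℕ) : ℤ := if x = 0 then 1 else 0
def i1 (x : ℕ) : ℤ := if x = 1 then 1 else 0
def i2 (x : ℕ) : ℤ := if x = 2 then 1 else 0
def eZ (x y z : ℕ) : ℤ := i0 x * i0 y + i0 x * i0 z + i0 y * i0 z - 2 * (i0 x * i0 y * i0 z)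
  + i1 x * i1 y + i2 x * i1 z + i2 y * i2 z
def pt (x y : ℕ) : Fin 3 := if x = 0 then 0 else if y = 0 then 1 else 2

theorem tabP : ∀ x < 3, ∀ y < 3, ∀ z < 3, (pc (cd x y z) : ℤ) = eZ x y z := by decide +kernel

theorem tab1 : ∀ x < 3, ∀ y < 3, ∀ z < 3, (go S1.TO (cd x y z) : ℤ) =
    288230376151711744 - 501508980501929 * eZ x y z - 9382499223688 * (3 - i0 x - i0 y - i0 z) := by decide +kernel

theorem tab2 : ∀ x < 3, ∀ y < 3, ∀ z < 3, (go S2.TO (cd x y z) : ℤ) =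
    288230376151711744 - 17151025638163 * eZ x y z + 9382499223688 * (i1 x * i1 y + i2 x * i1 z + i2 y * i2 z) := by
  decide +kernel

theorem tab2' : ∀ x < 3, ∀ y < 3, ∀ z < 3, ∀ x' < 3, ∀ y' < 3, ∀ z' < 3,
    (S2.w1 (cd x y z) (cd x' y' z') : ℤ) = 4691249611844 * (1 - (1 - i0 z) * (1 - i0 z')) := by
  decide +kernel

theorem tab3 : ∀ x < 3, ∀ y < 3, ∀ z < 3, (go S3.TO (cd x y z) : ℤ) =
    288230376151711744 - 96882713488685 * eZ x y z - 140737488354 * ((1 - i0 x) * (1 - i0 y) * (1 - i0 z)) ∧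
    ((Nat.mod (Nat.shiftRight 113467392 (cd x y z)) 2 : ℕ) : ℤ) = (1 - i0 x) * (1 - i0 y) * (1 - i0 z) := by
  decide +kernel

set_option synthInstance.maxSize 4000 in
theorem tab3' : ∀ e < 3, ∀ x < 3, ∀ y < 3, ∀ z < 3, ∀ x' < 3, ∀ y' < 3, ∀ z' < 3,
    ((cond (Nat.beq e 0) (Nat.sub 6 (cn (cd x y z) (cd x' y' z'))) (cn (cd x y z) (cd x' y' z')) : ℕ) : ℤ)
      = (i0 e - sm (pt x y) (pt x' y')) ^ 2 + (i0 e - sm (pt x z) (pt x' z')) ^ 2
        + (i0 e - sm (pt y x) (pt y' x')) ^ 2 + (i0 e - sm (pt y z) (pt y' z')) ^ 2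
        + (i0 e - sm (pt z x) (pt z' x')) ^ 2 + (i0 e - sm (pt z y) (pt z' y')) ^ 2 := by
  decide +kernel

theorem c4_one : c4 1 0 2 1 0 1 = 1 := by decide +kernel

variable {V : Type} (rel : V → V → ℕ)

theorem i1_flip (h : ∀ x y, Pr (rel x y) (rel y x)) (x y : V) : i1 (rel y x) = i2 (rel x y) := by
  rcases h x y with ⟨a, b⟩ | ⟨a, b⟩ | ⟨a, b⟩ <;> rw [a, b] <;> rfl

theorem i0_one {x : ℕ} (h : (i0 x : ℝ) = 1) : x = 0 := by
  unfold i0 at h; by_contra hx; simp [hx] at h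

theorem i1_one {x : ℕ} (h : (i1 x : ℝ) = 1) : x = 1 := by
  unfold i1 at h; by_contra hx; simp [hx] at h

/-- the oriented graph described by relation codes -/
noncomputable def toOG (h : ∀ x y, Pr (rel x y) (rel y x)) (hz : NoC4 rel) : OG V where
  r x y := (i1 (rel x y) : ℝ)
  n x y := (i0 (rel x y) : ℝ)
  r01 x y := by unfold i1; split_ifs <;> simp
  n01 x y := by unfold i0; split_ifs <;> simp
  tot x y := by
    rcases h x y with ⟨a, b⟩ | ⟨a, b⟩ | ⟨a, b⟩ <;> rw [a, b] <;> simp [i0, i1]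
  c4 a b c d h1 h2 h3 h4 h5 h6 := by
    have k := hz a b c d
    have e : rel a d = 2 := by
      have := i1_one h4
      rcases h a d with ⟨p, q⟩ | ⟨p, q⟩ | ⟨p, q⟩ <;> omega
    rw [i1_one h1, i1_one h2, i1_one h3, e, i0_one h5, i0_one h6, c4_one] at k
    omega

variable (h : ∀ x y, Pr (rel x y) (rel y x)) (hz : NoC4 rel)

theorem e_eq (a b c : V) : (toOG rel h hz).e a b c = (eZ (rel a b) (rel a c) (rel b c) : ℝ) := by
  unfold OG.e eZ toOG
  simp only [i1_flip rel h a b, i1_flip rel h a c, i1_flip rel h b c]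
  push_cast
  ring

variable [Fintype V]

theorem cert1 (μ : V → ℝ) (hμ : ∀ x, 0 ≤ μ x) (h1 : ∑ x, μ x = 1)
    (hρ : (toOG rel h hz).rho μ < 4 / 9) : 1 / 3 - 64 / 10000 ≤ (toOG rel h hz).db μ := by
  have hlt : ∀ x y, rel x y < 3 := fun x y => Pr_lt (h x y)
  have t := totalG rel S1.q3 S1.q1 _ S1.allChk h hz μ hμ h1
  have l3 : _ ≤ E5 μ (fun a b c d e => (G3 rel S1.q3 a b c d e : ℝ)) :=
    lowG3 rel S1.TQ S1.TL S1.all3 S1.w3 h μ hμ h1
  have l1 : _ ≤ E5 μ (fun a b c d e => (G1 rel S1.q1 a b c d e : ℝ)) :=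
    lowG1 rel S1.T1 S1.TL1 S1.cg1 S1.w1 h μ hμ h1
  have p3 : ∀ a b c d e, (G3 rel S1.w3 a b c d e : ℝ) = 288230376151711744 - 501508980501929 * (toOG rel h hz).e a b c
      - 9382499223688 * (3 - (toOG rel h hz).n a b - (toOG rel h hz).n a c - (toOG rel h hz).n b c) := by
    intro a b c d e
    have := congrArg (Int.cast : ℤ → ℝ) (tab1 _ (hlt a b) _ (hlt a c) _ (hlt b c))
    push_cast at this
    rw [e_eq]
    exact this
  have p1 : ∀ a b c d e, (G1 rel S1.w1 a b c d e : ℝ) = 0 := fun a b c d e => Nat.cast_zero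
  simp only [p3, E5, E_sub, E_ml, E_const h1] at l3
  simp only [p1, E5, E_const h1] at l1
  have e1 := (toOG rel h hz).Enu_eq h1
  unfold OG.nu at e1
  unfold OG.rho OG.DD at hρ
  unfold E5 at t
  rw [e1] at l3
  push_cast at t
  linarith

theorem cert2 (μ : V → ℝ) (hμ : ∀ x, 0 ≤ μ x) (h1 : ∑ x, μ x = 1)
    (hρ : (toOG rel h hz).rho μ < 4 / 9) :
    E μ (fun u => (toOG rel h hz).dg μ u ^ 2) - (toOG rel h hz).db μ ^ 2 ≤ 18 / 100000 := by
  have hlt : ∀ x y, rel x y < 3 := fun x y => Pr_lt (h x y)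
  have t := totalG rel S2.q3 S2.q1 _ S2.allChk h hz μ hμ h1
  have l3 : _ ≤ E5 μ (fun a b c d e => (G3 rel S2.q3 a b c d e : ℝ)) :=
    lowG3 rel S2.TQ S2.TL S2.all3 S2.w3 h μ hμ h1
  have l1 : _ ≤ E5 μ (fun a b c d e => (G1 rel S2.q1 a b c d e : ℝ)) :=
    lowG1 rel S2.T1 S2.TL1 S2.cg1 S2.w1 h μ hμ h1
  have p3 : ∀ a b c d e, (G3 rel S2.w3 a b c d e : ℝ) = 288230376151711744 - 17151025638163 * (toOG rel h hz).e a b c
      + 9382499223688 * ((toOG rel h hz).r a b * (toOG rel h hz).r a c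
        + (toOG rel h hz).r b a * (toOG rel h hz).r b c + (toOG rel h hz).r c a * (toOG rel h hz).r c b) := by
    intro a b c d e
    have := congrArg (Int.cast : ℤ → ℝ) (tab2 _ (hlt a b) _ (hlt a c) _ (hlt b c))
    rw [← i1_flip rel h a b, ← i1_flip rel h a c, ← i1_flip rel h b c] at this
    push_cast at this
    rw [e_eq]
    exact this
  have p1 : ∀ a b c d e, (G1 rel S2.w1 a b c d e : ℝ) =
      4691249611844 * (1 - (1 - (toOG rel h hz).n b c) * (1 - (toOG rel h hz).n d e)) := by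
    intro a b c d e
    have := congrArg (Int.cast : ℤ → ℝ)
      (tab2' _ (hlt a b) _ (hlt a c) _ (hlt b c) _ (hlt a d) _ (hlt a e) _ (hlt d e))
    push_cast at this
    exact this
  obtain ⟨G, hG⟩ : ∃ G, G = toOG rel h hz := ⟨_, rfl⟩
  rw [← hG] at p3 p1 hρ ⊢
  have q1 : E μ (fun a => E μ fun b => E μ fun c => G.r a b * G.r a c) = E μ (fun u => G.dg μ u ^ 2) :=
    E_congr _ fun a => by rw [← E_mul_E, sq]; rfl
  have q2 : E μ (fun a => E μ fun b => E μ fun c => G.r b a * G.r b c) = E μ (fun u => G.dg μ u ^ 2) := by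
    rw [E_comm]; exact q1
  have q3 : E μ (fun a => E μ fun b => E μ fun c => G.r c a * G.r c b) = E μ (fun u => G.dg μ u ^ 2) := by
    rw [← q2]
    exact E_congr _ fun a => by rw [E_comm]
  simp only [p3, E5, E_const h1] at l3
  simp only [E_add, E_sub, E_const h1, E_ml μ _ (17151025638163 : ℝ), E_ml μ _ (9382499223688 : ℝ)] at l3
  rw [q1, q2, q3] at l3
  simp only [p1, E5, E_const h1, E_sub, E_ml, E_mr] at l1
  have e1 := G.Enu_eq h1
  unfold OG.nu at e1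
  unfold OG.rho OG.DD at hρ
  unfold E5 at t
  rw [e1] at l1
  push_cast at t
  linarith

theorem cert3 [DecidableEq V] (μ : V → ℝ) (hμ : ∀ x, 0 ≤ μ x) (h1 : ∑ x, μ x = 1)
    (hρ : (toOG rel h hz).rho μ < 4 / 9) : ∃ P, (toOG rel h hz).WW μ P ≤ 5 / 1000 := by
  by_contra hc
  push Not at hc
  have hlt : ∀ x y, rel x y < 3 := fun x y => Pr_lt (h x y)
  have t := totalG rel S3.q3 S3.q1 _ S3.allChk h hz μ hμ h1
  have l3 : _ ≤ E5 μ (fun a b c d e => (G3 rel S3.q3 a b c d e : ℝ)) :=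
    lowG3 rel S3.TQ S3.TL S3.all3 S3.w3 h μ hμ h1
  have l1 : _ ≤ E5 μ (fun a b c d e => (G1 rel S3.q1 a b c d e : ℝ)) :=
    lowG1 rel S3.T1 S3.TL1 S3.cg1 S3.w1 h μ hμ h1
  have p3 : ∀ a b c d e, (G3 rel S3.w3 a b c d e : ℝ) = 288230376151711744 - 96882713488685 * (toOG rel h hz).e a b c
      - 140737488354 * ((1 - (toOG rel h hz).n a b) * (1 - (toOG rel h hz).n a c) * (1 - (toOG rel h hz).n b c))
      + ((1 - (toOG rel h hz).n a b) * (1 - (toOG rel h hz).n a c) * (1 - (toOG rel h hz).n b c))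
       * (4691249611800 * (((toOG rel h hz).n d e - (sm (pt (rel a d) (rel b d)) (pt (rel a e) (rel b e)) : ℝ)) ^ 2
        + ((toOG rel h hz).n d e - (sm (pt (rel a d) (rel c d)) (pt (rel a e) (rel c e)) : ℝ)) ^ 2
        + ((toOG rel h hz).n d e - (sm (pt (rel b d) (rel a d)) (pt (rel b e) (rel a e)) : ℝ)) ^ 2
        + ((toOG rel h hz).n d e - (sm (pt (rel b d) (rel c d)) (pt (rel b e) (rel c e)) : ℝ)) ^ 2
        + ((toOG rel h hz).n d e - (sm (pt (rel c d) (rel a d)) (pt (rel c e) (rel a e)) : ℝ)) ^ 2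
        + ((toOG rel h hz).n d e - (sm (pt (rel c d) (rel b d)) (pt (rel c e) (rel b e)) : ℝ)) ^ 2)) := by
    intro a b c d e
    have k1 := congrArg (Int.cast : ℤ → ℝ) (tab3 _ (hlt a b) _ (hlt a c) _ (hlt b c)).1
    have k2 := congrArg (Int.cast : ℤ → ℝ) (tab3 _ (hlt a b) _ (hlt a c) _ (hlt b c)).2
    have k3 := congrArg (Int.cast : ℤ → ℝ) (tab3' _ (hlt d e) _ (hlt a d) _ (hlt b d) _ (hlt c d)
      _ (hlt a e) _ (hlt b e) _ (hlt c e))
    rw [Int.cast_natCast] at k1 k2 k3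
    have k0 : G3 rel S3.w3 a b c d e = go S3.TO (cd (rel a b) (rel a c) (rel b c))
        + (Nat.mod (Nat.shiftRight 113467392 (cd (rel a b) (rel a c) (rel b c))) 2) * (4691249611800 *
          (cond (Nat.beq (rel d e) 0) (Nat.sub 6 (cn (cd (rel a d) (rel b d) (rel c d)) (cd (rel a e) (rel b e) (rel c e))))
            (cn (cd (rel a d) (rel b d) (rel c d)) (cd (rel a e) (rel b e) (rel c e))))) := rfl
    rw [k0, Nat.cast_add, Nat.cast_mul, Nat.cast_mul, k1, k2, k3, e_eq]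
    push_cast
    rfl
  have p1 : ∀ a b c d e, (G1 rel S3.w1 a b c d e : ℝ) = 0 := fun a b c d e => Nat.cast_zero
  obtain ⟨G, hG⟩ : ∃ G, G = toOG rel h hz := ⟨_, rfl⟩
  rw [← hG] at p3 hρ hc
  have l4 : E μ (fun a => E μ fun b => E μ fun c => 288230376151711744 - 96882713488685 * G.e a b c)
      ≤ E5 μ (fun a b c d e => (G3 rel S3.w3 a b c d e : ℝ)) := by
    refine E_le hμ fun a => E_le hμ fun b => E_le hμ fun c => ?_
    simp only [p3, E_add, E_ml, E_const h1]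
    have w1 := hc (fun d => pt (rel a d) (rel b d))
    have w2 := hc (fun d => pt (rel a d) (rel c d))
    have w3 := hc (fun d => pt (rel b d) (rel a d))
    have w4 := hc (fun d => pt (rel b d) (rel c d))
    have w5 := hc (fun d => pt (rel c d) (rel a d))
    have w6 := hc (fun d => pt (rel c d) (rel b d))
    unfold OG.WW at w1 w2 w3 w4 w5 w6
    have k : 0 ≤ (1 - G.n a b) * (1 - G.n a c) * (1 - G.n b c) :=
      mul_nonneg (mul_nonneg (sub_nonneg.mpr (G.n_le _ _)) (sub_nonneg.mpr (G.n_le _ _)))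
        (sub_nonneg.mpr (G.n_le _ _))
    have k2 := mul_le_mul_of_nonneg_left (add_le_add (add_le_add (add_le_add (add_le_add
      (add_le_add w1.le w2.le) w3.le) w4.le) w5.le) w6.le) k
    linarith
  simp only [E_sub, E_ml, E_const h1] at l4
  simp only [p1, E5, E_const h1] at l1
  unfold OG.rho OG.DD at hρ
  unfold E5 at t l3 l4
  push_cast at t
  linarith

theorem rho_ge [DecidableEq V] (ν : V → ℝ) (hν : ∀ x, 0 ≤ ν x) (h1 : ∑ x, ν x = 1) :
    4 / 9 ≤ (toOG rel h hz).rho ν :=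
  (toOG rel h hz).main_of (cert1 rel h hz) (cert2 rel h hz) (cert3 rel h hz) ν hν h1

include h hz in
theorem PP_ge [DecidableEq V] : 4 / 9 * (Fintype.card V : ℝ) ^ 3 ≤ (PP rel : ℝ) := by
  have hlt : ∀ x y, rel x y < 3 := fun x y => Pr_lt (h x y)
  rcases Nat.eq_zero_or_pos (Fintype.card V) with h0 | hpos
  · rw [h0]; simp
  have hN : (0 : ℝ) < Fintype.card V := by exact_mod_cast hpos
  have k := rho_ge rel h hz (fun _ => 1 / (Fintype.card V : ℝ)) (fun _ => by positivity)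
    (by simp [hN.ne'])
  have e : (toOG rel h hz).rho (fun _ => 1 / (Fintype.card V : ℝ))
      = (1 / (Fintype.card V : ℝ)) ^ 3 * (PP rel : ℝ) := by
    unfold OG.rho OG.DD E PP
    push_cast
    simp only [mul_sum]
    refine sum_congr rfl fun a _ => sum_congr rfl fun b _ => sum_congr rfl fun c _ => ?_
    have := congrArg (Int.cast : ℤ → ℝ) (tabP _ (hlt a b) _ (hlt a c) _ (hlt b c))
    rw [Int.cast_natCast] at this
    rw [e_eq, this]
    ring
  rw [e] at k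
  have k2 := mul_le_mul_of_nonneg_right k (show (0 : ℝ) ≤ (Fintype.card V : ℝ) ^ 3 by positivity)
  have e2 : (1 / (Fintype.card V : ℝ)) ^ 3 * (PP rel : ℝ) * (Fintype.card V : ℝ) ^ 3 = PP rel := by
    field_simp
  linarith

end Pool.Agent.H301Z.FdF
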