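import Pool.Agent.H301Z.FdF.Basic

set_option autoImplicit false
open Finset

namespace Pool.Agent.H301Z.FdF
namespace OG

variable {V : Type} [Fintype V] [DecidableEq V] (G : OG V)

/-- weight of adjacent pairs -/
noncomputable def wa (f : V → ℝ) : ℝ := E f (fun x => E f fun y => 1 - G.n x y) / 2

/-- defect of a weighted bipartite configuration -/
noncomputable def T (f g : V → ℝ) : ℝ := G.wa f + G.wa g + E f (fun x => E g fun y => G.n x y)

omit [DecidableEq V] in
theorem wa_nonneg {f : V → ℝ} (hf : ∀ x, 0 ≤ f x) : 0 ≤ G.wa f :=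
  div_nonneg (E_nonneg hf fun x => E_nonneg hf fun y => sub_nonneg.mpr (G.n_le x y)) (by norm_num)

omit [DecidableEq V] in
theorem cross_nonneg {f g : V → ℝ} (hf : ∀ x, 0 ≤ f x) (hg : ∀ x, 0 ≤ g x) :
    0 ≤ E f (fun x => E g fun y => G.n x y) :=
  E_nonneg hf fun x => E_nonneg hg fun y => G.n_nonneg x y

omit [DecidableEq V] in
theorem cross_symm (f g : V → ℝ) :
    E f (fun x => E g fun y => G.n x y) = E g (fun x => E f fun y => G.n x y) := by
  rw [E_comm]
  exact E_congr _ fun y => E_congr _ fun x => G.nsymm x y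

omit [DecidableEq V] in
theorem T_symm (f g : V → ℝ) : G.T f g = G.T g f := by
  unfold T
  rw [G.cross_symm f g]
  ring

omit [DecidableEq V] in
theorem T_nonneg {f g : V → ℝ} (hf : ∀ x, 0 ≤ f x) (hg : ∀ x, 0 ≤ g x) : 0 ≤ G.T f g :=
  add_nonneg (add_nonneg (G.wa_nonneg hf) (G.wa_nonneg hg)) (G.cross_nonneg hf hg)

theorem arith_e {e e' nx w c : ℝ} (hc : 0 < c) (h1 : e ≤ e' + nx) (h2 : e * e' ≤ w) (hn : 0 ≤ nx)
    (hw : 0 ≤ w) : e ≤ w / (2 * c) + c / 2 + nx := by
  have hw' : 0 ≤ w / (2 * c) := by positivity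
  by_cases ht : e - nx ≤ 0
  · linarith
  push Not at ht
  have h3 : (e - nx) * (e - nx) ≤ e * e' :=
    mul_le_mul (by linarith) (by linarith) ht.le (by linarith)
  have h4 : (e - nx) - c / 2 ≤ w / (2 * c) := by
    rw [le_div_iff₀ (by positivity)]
    nlinarith [sq_nonneg (e - nx - c)]
  linarith

omit [Fintype V] [DecidableEq V] in
theorem pw_c4 {x z : V} (hn : G.n x z = 1) (y y' : V) :
    (G.r x y * G.r y z) * (G.r z y' * G.r y' x) + (G.r x y' * G.r y' z) * (G.r z y * G.r y x)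
      ≤ 1 - G.n y y' := by
  have c1 := G.c4 x y z y'
  have c2 := G.c4 x y' z y
  have s := G.nsymm y y'
  rcases G.n01 y y' with h | h
  · rw [h]
    rcases G.cases3 x y with ⟨a1, a2, -⟩ | ⟨a1, a2, -⟩ | ⟨a1, a2, -⟩ <;> rw [a1, a2] <;>
    rcases G.r01 y z with b1 | b1 <;> rcases G.r01 z y' with b2 | b2 <;>
    rcases G.r01 y' x with b3 | b3 <;> rcases G.r01 x y' with b4 | b4 <;>
    rcases G.r01 y' z with b5 | b5 <;> rcases G.r01 z y with b6 | b6 <;>
    rw [b1, b2, b3, b4, b5, b6] <;> norm_num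
  · have e1 : (G.r x y * G.r y z) * (G.r z y' * G.r y' x) = 0 := by
      rcases G.r01 x y with b0 | b0
      · rw [b0]; ring
      rcases G.r01 y z with b1 | b1
      · rw [b1]; ring
      rcases G.r01 z y' with b2 | b2
      · rw [b2]; ring
      rcases G.r01 y' x with b3 | b3
      · rw [b3]; ring
      exact (c1 b0 b1 b2 b3 hn h).elim
    have e2 : (G.r x y' * G.r y' z) * (G.r z y * G.r y x) = 0 := by
      rcases G.r01 x y' with b0 | b0
      · rw [b0]; ring
      rcases G.r01 y' z with b1 | b1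
      · rw [b1]; ring
      rcases G.r01 z y with b2 | b2
      · rw [b2]; ring
      rcases G.r01 y x with b3 | b3
      · rw [b3]; ring
      exact (c2 b0 b1 b2 b3 hn (s ▸ h)).elim
    rw [e1, e2, h]; norm_num

omit [Fintype V] in
theorem pw_deg {x z y0 : V} (hr : G.r y0 z = 1) (y : V) :
    G.r z y ≤ G.r x y - G.r x y * G.r y z + G.r z y * G.r y x + G.n x y * (1 - dl y0 y) := by
  by_cases hy : y = y0
  · subst hy
    have t := G.tot y z
    have := G.n_nonneg y z
    have := G.r_nonneg z y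
    have h0 : G.r z y = 0 := by linarith
    rw [dl_self, hr, h0]; norm_num
  · rw [dl_ne hy]
    rcases G.cases3 x y with ⟨a1, a2, a3⟩ | ⟨a1, a2, a3⟩ | ⟨a1, a2, a3⟩ <;>
    rcases G.cases3 z y with ⟨b1, b2, -⟩ | ⟨b1, b2, -⟩ | ⟨b1, b2, -⟩ <;>
    rw [a1, a2, a3, b1, b2] <;> norm_num

omit [Fintype V] in
theorem dl_le (u x : V) : 0 ≤ 1 - dl u x := by
  unfold dl; split_ifs <;> norm_num

theorem key_e {g : V → ℝ} (hg : ∀ x, 0 ≤ g x) {x z y0 : V} {c : ℝ} (hc : 0 < c)
    (hn : G.n x z = 1) (hr : G.r y0 z = 1) (hmin : E g (G.r x) ≤ E g (G.r z)) :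
    E g (fun y => G.r x y * G.r y z) ≤
      G.wa g / (2 * c) + c / 2 + E g (fun y => G.n x y * (1 - dl y0 y)) := by
  have h1 := E_le hg (G.pw_deg (x := x) hr)
  simp only [E_add, E_sub] at h1
  have h2 := E_le hg fun y => E_le hg fun y' => G.pw_c4 hn y y'
  have e1 : E g (fun y => E g fun y' => (G.r x y * G.r y z) * (G.r z y' * G.r y' x)
      + (G.r x y' * G.r y' z) * (G.r z y * G.r y x))
      = 2 * (E g (fun y => G.r x y * G.r y z) * E g (fun y => G.r z y * G.r y x)) := by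
    simp only [E_add, E_ml, E_mr]
    ring
  rw [e1] at h2
  refine arith_e (e' := E g (fun y => G.r z y * G.r y x)) hc ?_ ?_
    (E_nonneg hg fun y => mul_nonneg (G.n_nonneg _ _) (dl_le _ _)) (G.wa_nonneg hg)
  · have e2 : E g (fun y => G.r x y) = E g (G.r x) := rfl
    have e3 : E g (fun y => G.r z y) = E g (G.r z) := rfl
    rw [e2, e3] at h1
    linarith
  · unfold wa
    linarith

theorem half {f g : V → ℝ} (hf : ∀ x, 0 ≤ f x) (hg : ∀ x, 0 ≤ g x) (x y0 : V) {c : ℝ} (hc : 0 < c)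
    (hmin : ∀ z, 0 < f z → E g (G.r x) ≤ E g (G.r z)) :
    E f (fun z => G.r y0 z * E g (fun y => G.r x y * G.r y z)) ≤
      E f (G.r y0) * (G.wa g / (2 * c) + c / 2 + E g (fun y => G.n x y * (1 - dl y0 y)))
        + E g (G.r x) * E f (fun z => 1 - G.n x z) := by
  rw [← E_mr, ← E_ml, ← E_add]
  refine E_mono hf fun z hz => ?_
  have hM : 0 ≤ E g (G.r x) := E_nonneg hg fun y => G.r_nonneg _ _
  have hK : 0 ≤ G.wa g / (2 * c) + c / 2 + E g (fun y => G.n x y * (1 - dl y0 y)) := by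
    have := G.wa_nonneg hg
    have := E_nonneg hg fun y => mul_nonneg (G.n_nonneg x y) (dl_le y0 y)
    positivity
  rcases G.r01 y0 z with h | h
  · rw [h]
    have := mul_nonneg hM (sub_nonneg.mpr (G.n_le x z))
    linarith
  · rcases G.n01 x z with h' | h'
    · have : E g (fun y => G.r x y * G.r y z) ≤ E g (G.r x) :=
        E_le hg fun y => mul_le_of_le_one_right (G.r_nonneg _ _) (G.r_le _ _)
      rw [h, h']
      linarith
    · have := G.key_e hg hc h' h (hmin z hz)
      rw [h, h']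
      linarith

omit [DecidableEq V] in
theorem prod_le {f g : V → ℝ} (hf : ∀ x, 0 ≤ f x) (hg : ∀ x, 0 ≤ g x) (x y0 : V) :
    E f (G.r y0) * E g (G.r x) ≤
      E f (fun z => G.r y0 z * E g (fun y => G.r x y * G.r y z))
      + E g (fun y => G.r x y * E f (fun z => G.r y0 z * G.r z y))
      + E f (fun z => E g fun y => G.n z y) := by
  have e1 : E g (fun y => G.r x y * E f (fun z => G.r y0 z * G.r z y))
      = E f (fun z => E g fun y => G.r x y * (G.r y0 z * G.r z y)) := by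
    rw [E_comm]; simp only [E_ml]
  have e2 : E f (fun z => G.r y0 z * E g (fun y => G.r x y * G.r y z))
      = E f (fun z => E g fun y => G.r y0 z * (G.r x y * G.r y z)) := by
    simp only [E_ml]
  rw [E_mul_E, e1, e2, ← E_add, ← E_add]
  refine E_le hf fun z => ?_
  rw [← E_add, ← E_add]
  refine E_le hg fun y => ?_
  rcases G.r01 y0 z with a | a <;> rcases G.r01 x y with b | b <;>
    rcases G.cases3 z y with ⟨b1, b2, b3⟩ | ⟨b1, b2, b3⟩ | ⟨b1, b2, b3⟩ <;>
    rw [a, b, b1, b2, b3] <;> norm_num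

theorem arith_M {M M' a b n δ : ℝ} (hδ : 0 < δ) (h1 : δ ≤ M) (h2 : δ ≤ M') (ha : 0 ≤ a) (hb : 0 ≤ b)
    (hn : 0 ≤ n) (h : M' * M ≤ M' * a + M * b + n) : δ ^ 2 ≤ δ * (a + b) + n := by
  have hM : 0 < M := by linarith
  have hM' : 0 < M' := by linarith
  have k1 : δ ^ 2 * (M' * a) ≤ (M' * M) * (δ * a) := by
    have := mul_le_mul_of_nonneg_left h1 (mul_nonneg (mul_nonneg hδ.le hM'.le) ha)
    nlinarith
  have k2 : δ ^ 2 * (M * b) ≤ (M' * M) * (δ * b) := by
    have := mul_le_mul_of_nonneg_left h2 (mul_nonneg (mul_nonneg hδ.le hM.le) hb)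
    nlinarith
  have k3 : δ ^ 2 * n ≤ (M' * M) * n := by
    refine mul_le_mul_of_nonneg_right ?_ hn
    rw [sq]
    exact mul_le_mul h2 h1 hδ.le hM'.le
  have k4 := mul_le_mul_of_nonneg_left h (sq_nonneg δ)
  have k5 : (M' * M) * δ ^ 2 ≤ (M' * M) * (δ * (a + b) + n) := by nlinarith
  exact le_of_mul_le_mul_left k5 (mul_pos hM' hM)

theorem arith_u {wA wB n δ u : ℝ} (hδ : 0 < δ) (hA : 0 ≤ wA) (hB : 0 ≤ wB) (hn : 0 ≤ n)
    (hT : wA + wB + n < 19 / 100 * δ ^ 2)
    (h : δ ^ 2 ≤ δ * (wB / (2 * (308 / 1000 * δ)) + 308 / 1000 * δ / 2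
      + (wA / (2 * (308 / 1000 * δ)) + 308 / 1000 * δ / 2) + u) + n) : 38 / 100 * δ ≤ u := by
  have e1 : δ * (wB / (2 * (308 / 1000 * δ)) + 308 / 1000 * δ / 2
      + (wA / (2 * (308 / 1000 * δ)) + 308 / 1000 * δ / 2) + u)
      = (wA + wB) * (1000 / 616) + 308 / 1000 * δ ^ 2 + δ * u := by
    field_simp
    ring
  rw [e1] at h
  have h2 : δ * (38 / 100 * δ) ≤ δ * u := by nlinarith
  exact le_of_mul_le_mul_left h2 hδ

theorem E2_wsub (f g : V → ℝ) (x y0 : V) (m m' : ℝ) (F : V → V → ℝ) :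
    E (fun z => f z - m * dl x z) (fun a => E (fun z => g z - m' * dl y0 z) (fun b => F a b)) =
      E f (fun a => E g (fun b => F a b)) - m' * E f (fun a => F a y0) - m * E g (fun b => F x b)
        + m * m' * F x y0 := by
  simp only [E_wsub1, E_sub, E_ml]
  ring

theorem T_sub (f g : V → ℝ) (x y0 : V) (m m' : ℝ) :
    G.T (fun z => f z - m * dl x z) (fun z => g z - m' * dl y0 z) =
      G.T f g - m * (E f (fun z => 1 - G.n x z) + E g (fun y => G.n x y))
        - m' * (E g (fun z => 1 - G.n y0 z) + E f (fun y => G.n y0 y)) + m * m' * G.n x y0 := by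
  have e1 : E f (fun z => 1 - G.n z x) = E f (fun z => 1 - G.n x z) :=
    E_congr _ fun z => by rw [G.nsymm]
  have e2 : E g (fun z => 1 - G.n z y0) = E g (fun z => 1 - G.n y0 z) :=
    E_congr _ fun z => by rw [G.nsymm]
  have e3 : E f (fun z => G.n z y0) = E f (fun z => G.n y0 z) :=
    E_congr _ fun z => by rw [G.nsymm]
  unfold T wa
  rw [E2_wsub, E2_wsub, E2_wsub, e1, e2, e3, G.n_self, G.n_self]
  ring

/-- number of vertices of positive weight -/
noncomputable def sz (f : V → ℝ) : ℕ := (univ.filter fun x => 0 < f x).card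

theorem sz_le {f : V → ℝ} (x : V) {m : ℝ} (hm : 0 ≤ m) :
    sz (fun z => f z - m * dl x z) ≤ sz f := by
  refine card_le_card fun z hz => ?_
  simp only [mem_filter, mem_univ, true_and] at hz ⊢
  have : 0 ≤ m * dl x z := mul_nonneg hm (by unfold dl; split_ifs <;> norm_num)
  linarith

theorem sz_lt {f : V → ℝ} (x : V) (hx : 0 < f x) :
    sz (fun z => f z - f x * dl x z) < sz f := by
  refine card_lt_card ⟨fun z hz => ?_, fun h => ?_⟩
  · simp only [mem_filter, mem_univ, true_and] at hz ⊢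
    have : 0 ≤ f x * dl x z := mul_nonneg hx.le (by unfold dl; split_ifs <;> norm_num)
    linarith
  · have := h (show x ∈ univ.filter fun z => 0 < f z by simp [hx])
    simp [dl_self] at this

omit [Fintype V] in
theorem sub_nonneg' {f : V → ℝ} (hf : ∀ x, 0 ≤ f x) (x : V) {m : ℝ} (hm : m ≤ f x) (z : V) :
    0 ≤ f z - m * dl x z := by
  by_cases h : z = x
  · subst h; rw [dl_self]; linarith
  · rw [dl_ne h]; have := hf z; linarith

omit [Fintype V] in
theorem sub_pos' {f : V → ℝ} (x : V) {m : ℝ} (hm : 0 ≤ m) {z : V} (h : 0 < f z - m * dl x z) :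
    0 < f z := by
  have : 0 ≤ m * dl x z := mul_nonneg hm (by unfold dl; split_ifs <;> norm_num)
  linarith

omit [DecidableEq V] in
theorem exists_pos {g : V → ℝ} (hg : ∀ x, 0 ≤ g x) {F : V → ℝ} (h : 0 < E g F) : ∃ y, 0 < g y := by
  by_contra hc
  push Not at hc
  have : E g F = 0 := sum_eq_zero fun y _ => by rw [le_antisymm (hc y) (hg y), zero_mul]
  linarith

theorem core (N : ℕ) : ∀ f g : V → ℝ, (∀ x, 0 ≤ f x) → (∀ x, 0 ≤ g x) → sz f + sz g ≤ N →
    ∀ δ : ℝ, 0 < δ → (∃ x, 0 < f x) → (∀ x, 0 < f x → δ ≤ E g (G.r x)) →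
      (∀ y, 0 < g y → δ ≤ E f (G.r y)) → 19 / 100 * δ ^ 2 ≤ G.T f g := by
  induction N with
  | zero =>
    intro f g _ _ hN δ _ ⟨x, hx⟩ _ _
    have : 0 < sz f := card_pos.mpr ⟨x, by simp [hx]⟩
    omega
  | succ N ih =>
    intro f g hf hg hN δ hδ ⟨x1, hx1⟩ hdf hdg
    obtain ⟨y1, hy1⟩ := exists_pos hg (lt_of_lt_of_le hδ (hdf x1 hx1))
    obtain ⟨x, hx, hxm⟩ := exists_min_image (univ.filter fun z => 0 < f z) (fun z => E g (G.r z))
      ⟨x1, by simp [hx1]⟩
    obtain ⟨y0, hy, hym⟩ := exists_min_image (univ.filter fun z => 0 < g z) (fun z => E f (G.r z))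
      ⟨y1, by simp [hy1]⟩
    simp only [mem_filter, mem_univ, true_and] at hx hxm hy hym
    by_contra hT
    push Not at hT
    have hc : 0 < 308 / 1000 * δ := by positivity
    have h1 := G.half hf hg x y0 hc hxm
    have h2 := G.half hg hf y0 x hc hym
    have h3 := G.prod_le hf hg x y0
    have n1 := E_nonneg hg fun y => mul_nonneg (G.n_nonneg x y) (dl_le y0 y)
    have n2 := E_nonneg hf fun y => mul_nonneg (G.n_nonneg y0 y) (dl_le x y)
    have n3 := E_nonneg hf fun z => sub_nonneg.mpr (G.n_le x z)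
    have n4 := E_nonneg hg fun z => sub_nonneg.mpr (G.n_le y0 z)
    have wf := G.wa_nonneg hf
    have wg := G.wa_nonneg hg
    have h4 := arith_M (M := E g (G.r x)) (M' := E f (G.r y0))
      (a := G.wa g / (2 * (308 / 1000 * δ)) + 308 / 1000 * δ / 2
        + E g (fun y => G.n x y * (1 - dl y0 y)) + E g (fun z => 1 - G.n y0 z))
      (b := G.wa f / (2 * (308 / 1000 * δ)) + 308 / 1000 * δ / 2
        + E f (fun y => G.n y0 y * (1 - dl x y)) + E f (fun z => 1 - G.n x z))
      hδ (hdf x hx) (hdg y0 hy) (by positivity) (by positivity) (G.cross_nonneg hf hg)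
      (by linarith)
    have h5 := arith_u (u := E g (fun y => G.n x y * (1 - dl y0 y)) + E g (fun z => 1 - G.n y0 z)
        + (E f (fun y => G.n y0 y * (1 - dl x y)) + E f (fun z => 1 - G.n x z)))
      hδ wf wg (G.cross_nonneg hf hg) hT (by linarith)
    have e1 : E g (fun y => G.n x y * (1 - dl y0 y)) = E g (fun y => G.n x y) - g y0 * G.n x y0 := by
      rw [← E_dl g y0 (fun y => G.n x y), ← E_sub]
      exact E_congr _ fun y => by ring
    have e2 : E f (fun y => G.n y0 y * (1 - dl x y)) = E f (fun y => G.n y0 y) - f x * G.n x y0 := by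
      rw [G.nsymm x y0, ← E_dl f x (fun y => G.n y0 y), ← E_sub]
      exact E_congr _ fun y => by ring
    rw [e1, e2] at h5
    obtain ⟨m, hm0, hm1, hm2, hm3⟩ : ∃ m : ℝ, 0 < m ∧ m ≤ f x ∧ m ≤ g y0 ∧ (m = f x ∨ m = g y0) :=
      ⟨min (f x) (g y0), lt_min hx hy, min_le_left _ _, min_le_right _ _, min_choice _ _⟩
    have hf' := sub_nonneg' hf x hm1
    have hg' := sub_nonneg' hg y0 hm2
    have hT' := G.T_sub f g x y0 m m
    have hT2 : G.T (fun z => f z - m * dl x z) (fun z => g z - m * dl y0 z)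
        ≤ G.T f g - m * (38 / 100 * δ) := by
      have k1 := mul_le_mul_of_nonneg_left h5 hm0.le
      have k2 : 0 ≤ m * G.n x y0 * (f x + g y0 - m) :=
        mul_nonneg (mul_nonneg hm0.le (G.n_nonneg _ _)) (by linarith)
      rw [hT']
      linarith
    have hT0 := G.T_nonneg hf' hg'
    have hmd : m < δ := by
      by_contra hh
      push Not at hh
      nlinarith
    have hsz : sz (fun z => f z - m * dl x z) + sz (fun z => g z - m * dl y0 z) ≤ N := by
      have a1 := sz_le (f := f) x hm0.le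
      have a2 := sz_le (f := g) y0 hm0.le
      rcases hm3 with rfl | rfl
      · have := sz_lt x hx; omega
      · have := sz_lt y0 hy; omega
    have d1 : ∀ z, 0 < f z → δ - m ≤ E (fun z => g z - m * dl y0 z) (G.r z) := by
      intro z hz
      rw [E_wsub1]
      have := hdf z hz
      have := mul_le_of_le_one_right hm0.le (G.r_le z y0)
      linarith
    have d2 : ∀ z, 0 < g z → δ - m ≤ E (fun z => f z - m * dl x z) (G.r z) := by
      intro z hz
      rw [E_wsub1]
      have := hdg z hz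
      have := mul_le_of_le_one_right hm0.le (G.r_le z x)
      linarith
    have h6 := ih _ _ hf' hg' hsz (δ - m) (by linarith)
      (exists_pos hf' (lt_of_lt_of_le (by linarith) (d2 y0 hy)))
      (fun z hz => d1 z (sub_pos' x hm0.le hz)) (fun z hz => d2 z (sub_pos' y0 hm0.le hz))
    nlinarith

end OG
end Pool.Agent.H301Z.FdF
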