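import Pool.Agent.H301Z.FdF.Deg

set_option autoImplicit false
open Finset

namespace Pool.Agent.H301Z.FdF
namespace OG

variable {V : Type} [Fintype V] (G : OG V)

/-- the standing hypotheses of the stability argument -/
structure Ctx (μ : V → ℝ) (s : V → V → ℝ) (A B C : V → ℝ) : Prop where
  hμ : ∀ x, 0 ≤ μ x
  h1 : ∑ x, μ x = 1
  hρ : G.rho μ < 4 / 9
  hK : ∀ u, 0 < μ u → G.DD μ u ≤ G.rho μ
  hS1 : 1 / 3 - 64 / 10000 ≤ G.db μ
  hS2 : E μ (fun u => G.dg μ u ^ 2) - G.db μ ^ 2 ≤ 18 / 100000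
  hP : IsPart A B C
  hs : IsS A B C s
  hW : E μ (fun u => G.wi μ s u) + E μ (fun u => G.wo μ s u) ≤ 5 / 1000
  lA : ∀ u, 0 < μ u → E μ (fun y => s u y * (1 - 2 * G.n u y)) ≤ E μ (fun y => A y * (1 - 2 * G.n u y))
  lB : ∀ u, 0 < μ u → E μ (fun y => s u y * (1 - 2 * G.n u y)) ≤ E μ (fun y => B y * (1 - 2 * G.n u y))
  lC : ∀ u, 0 < μ u → E μ (fun y => s u y * (1 - 2 * G.n u y)) ≤ E μ (fun y => C y * (1 - 2 * G.n u y))

variable {G} {μ : V → ℝ} {s : V → V → ℝ} {A B C : V → ℝ}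

theorem Ctx.swap (h : G.Ctx μ s A B C) : G.Ctx μ s B A C :=
  ⟨h.hμ, h.h1, h.hρ, h.hK, h.hS1, h.hS2, h.hP.swap, h.hs.swap, h.hW, h.lB, h.lA, h.lC⟩

theorem Ctx.rot (h : G.Ctx μ s A B C) : G.Ctx μ s B C A :=
  ⟨h.hμ, h.h1, h.hρ, h.hK, h.hS1, h.hS2, h.hP.rot, h.hs.rot, h.hW, h.lB, h.lC, h.lA⟩

theorem Ctx.Wi0 (h : G.Ctx μ s A B C) : 0 ≤ E μ (fun u => G.wi μ s u) :=
  E_nonneg h.hμ (G.wi_nonneg h.hμ h.hP h.hs)

theorem Ctx.Wo0 (h : G.Ctx μ s A B C) : 0 ≤ E μ (fun u => G.wo μ s u) :=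
  E_nonneg h.hμ (G.wo_nonneg h.hμ h.hP h.hs)

theorem Ctx.sqle (h : G.Ctx μ s A B C) :
    E μ A ^ 2 + E μ B ^ 2 + E μ C ^ 2 ≤ 1 / 3 + 178 / 10000 := by
  have := G.sq_eq h.h1 h.hs
  have := h.Wo0
  have := h.hW
  have := h.hS1
  linarith

theorem Ctx.box (h : G.Ctx μ s A B C) : 1 / 3 - 109 / 1000 ≤ E μ A ∧ E μ A ≤ 1 / 3 + 109 / 1000 :=
  ar_box (Esum h.h1 h.hP) h.sqle

theorem Ctx.vertexA (h : G.Ctx μ s A B C) (u : V) (hu : 0 < μ u) (hA : A u = 1) (hB : B u = 0)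
    (hC : C u = 0) : G.wi μ s u ≤ 41 / 1000 ∧ G.wo μ s u ≤ 6 / 100 := by
  have hμ := h.hμ
  have su : ∀ y, s u y = A y := fun y => by rw [h.hs, hA, hB, hC]; ring
  have f1 : ∀ J : V → ℝ, E μ (fun y => J y * (1 - 2 * G.n u y))
      = E μ J - 2 * E μ (fun y => J y * G.n u y) := by
    intro J
    rw [← E_ml, ← E_sub]
    exact E_congr _ fun y => by ring
  have f2 : ∀ J : V → ℝ, (∀ y, 0 ≤ J y) → E μ (fun y => J y * G.n u y) ≤ E μ J := fun J hJ =>
    E_le hμ fun y => mul_le_of_le_one_right (hJ y) (G.n_le _ _)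
  have f3 : ∀ J : V → ℝ, (∀ y, 0 ≤ J y) → 0 ≤ E μ (fun y => J y * G.n u y) := fun J hJ =>
    E_nonneg hμ fun y => mul_nonneg (hJ y) (G.n_nonneg _ _)
  have l1 := h.lB u hu
  have l2 := h.lC u hu
  simp only [su] at l1 l2
  rw [f1, f1] at l1 l2
  have e1 : G.nu μ u = E μ (fun y => A y * G.n u y) + E μ (fun y => B y * G.n u y)
      + E μ (fun y => C y * G.n u y) := by
    rw [← E_add, ← E_add]
    refine E_congr _ fun y => ?_
    have := h.hP.sum y
    rw [← add_mul, ← add_mul, this, one_mul]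
  have e2 : G.wi μ s u = E μ A - E μ (fun y => A y * G.n u y) := by
    rw [← E_sub]
    exact E_congr _ fun y => by rw [su]; ring
  have e3 : G.wo μ s u = E μ (fun y => B y * G.n u y) + E μ (fun y => C y * G.n u y) := by
    rw [← E_add]
    refine E_congr _ fun y => ?_
    have := h.hP.sum y
    rw [su, show 1 - A y = B y + C y by linarith]; ring
  have v1 := G.vertex1 hμ h.h1 h.hρ h.hS1 h.hS2 u (h.hK u hu)
  have v2 := G.p1_ge hμ h.hP h.hs u
  have b1 := h.box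
  have b2 := h.rot.box
  have b3 := h.rot.rot.box
  have w1 := h.hW
  have w2 := h.Wo0
  rw [e1] at v1
  rw [e2, e3]
  exact ar_vertex (Esum h.h1 h.hP) (by linarith [b1.1]) (by linarith [b2.1]) (by linarith [b3.1])
    (by linarith [b2.2]) (by linarith [b3.2]) (G.db_le hμ h.h1 h.hρ) h.hS1
    (f2 A h.hP.nonneg) (f2 B h.hP.rot.nonneg) (f2 C h.hP.rot.rot.nonneg)
    (f3 A h.hP.nonneg) (f3 B h.hP.rot.nonneg) (f3 C h.hP.rot.rot.nonneg) l1 l2 (by linarith)

theorem Ctx.vertex (h : G.Ctx μ s A B C) (u : V) (hu : 0 < μ u) :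
    G.wi μ s u ≤ 41 / 1000 ∧ G.wo μ s u ≤ 6 / 100 := by
  rcases h.hP u with ⟨a, b, c⟩ | ⟨a, b, c⟩ | ⟨a, b, c⟩
  · exact h.vertexA u hu a b c
  · exact h.rot.vertexA u hu b c a
  · exact h.rot.rot.vertexA u hu c a b

omit [Fintype V] in
theorem pw_pi (hP : IsPart A B C) (hs : IsS A B C s) (x y z : V) :
    s y z * (1 - G.n y z) * (s y x - s y x * (1 - G.n y x) - s z x * (1 - G.n z x))
    + G.n x y * (1 - s x y) * (s x z - s x z * (1 - G.n x z) - G.n y z * (1 - s y z))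
    + G.n x z * (1 - s x z) * (s x y - s x y * (1 - G.n x y) - G.n z y * (1 - s z y))
    ≤ G.n y x * G.n x z * (1 - G.n y z) := by
  rw [G.nsymm y x, G.nsymm z x, G.nsymm z y, hs.symm y x, hs.symm z x, hs.symm z y]
  rcases hs.tri hP x y z with ⟨a, b, c⟩ | ⟨a, b, c⟩ | ⟨a, b, c⟩ | ⟨a, b, c⟩ | ⟨a, b, c⟩ <;>
  rcases G.n01 x y with n1 | n1 <;> rcases G.n01 x z with n2 | n2 <;>
  rcases G.n01 y z with n3 | n3 <;>
  rw [a, b, c, n1, n2, n3] <;> norm_num

theorem Ctx.pi_ge (h : G.Ctx μ s A B C) :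
    E μ (fun x => (E μ (fun y => s x y) - 82 / 1000) * G.wi μ s x)
      + 2 * E μ (fun x => (E μ (fun y => s x y) - 101 / 1000) * G.wo μ s x)
      ≤ E μ (fun u => G.p1 μ u) := by
  have hμ := h.hμ
  have k := E_le hμ fun y => E_le hμ fun x => E_le hμ fun z => pw_pi (G := G) h.hP h.hs x y z
  simp only [E_add] at k
  have c1 : E μ (fun x => (E μ (fun y => s x y) - 82 / 1000) * G.wi μ s x) ≤
      E μ (fun y => E μ fun x => E μ fun z =>
        s y z * (1 - G.n y z) * (s y x - s y x * (1 - G.n y x) - s z x * (1 - G.n z x))) := by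
    refine E_mono hμ fun y hy => ?_
    rw [E_comm]
    unfold wi
    rw [← E_ml]
    refine E_mono hμ fun z hz => ?_
    rw [E_ml, E_sub, E_sub]
    have a1 := (h.vertex y hy).1
    have a2 := (h.vertex z hz).1
    unfold wi at a1 a2
    have a3 : 0 ≤ s y z * (1 - G.n y z) := by
      have := G.n_le y z
      rcases h.hs.s01 h.hP y z with e | e <;> rw [e] <;> linarith
    rw [mul_comm]
    exact mul_le_mul_of_nonneg_left (by linarith) a3
  have c2 : E μ (fun x => (E μ (fun y => s x y) - 101 / 1000) * G.wo μ s x) ≤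
      E μ (fun x => E μ fun y => E μ fun z =>
        G.n x y * (1 - s x y) * (s x z - s x z * (1 - G.n x z) - G.n y z * (1 - s y z))) := by
    refine E_mono hμ fun x hx => ?_
    unfold wo
    rw [← E_ml]
    refine E_mono hμ fun y hy => ?_
    rw [E_ml, E_sub, E_sub]
    have a1 := (h.vertex x hx).1
    have a2 := (h.vertex y hy).2
    unfold wi at a1
    unfold wo at a2
    have a3 : 0 ≤ G.n x y * (1 - s x y) := by
      have := G.n_nonneg x y
      rcases h.hs.s01 h.hP x y with e | e <;> rw [e] <;> linarith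
    rw [mul_comm]
    exact mul_le_mul_of_nonneg_left (by linarith) a3
  have e2 : E μ (fun y => E μ fun x => E μ fun z =>
        G.n x y * (1 - s x y) * (s x z - s x z * (1 - G.n x z) - G.n y z * (1 - s y z)))
      = E μ (fun x => E μ fun y => E μ fun z =>
        G.n x y * (1 - s x y) * (s x z - s x z * (1 - G.n x z) - G.n y z * (1 - s y z))) := by
    rw [E_comm]
  have e3 : E μ (fun y => E μ fun x => E μ fun z =>
        G.n x z * (1 - s x z) * (s x y - s x y * (1 - G.n x y) - G.n z y * (1 - s z y)))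
      = E μ (fun x => E μ fun y => E μ fun z =>
        G.n x y * (1 - s x y) * (s x z - s x z * (1 - G.n x z) - G.n y z * (1 - s y z))) := by
    rw [E_comm]
    exact E_congr _ fun x => by rw [E_comm]
  rw [e2, e3] at k
  have e4 : E μ (fun u => G.p1 μ u) =
      E μ (fun y => E μ fun x => E μ fun z => G.n y x * G.n x z * (1 - G.n y z)) := rfl
  rw [e4]
  linarith

theorem Ctx.rho_ge (h : G.Ctx μ s A B C) (d0 : ℝ)
    (hd : d0 = (1 - (E μ A ^ 2 + E μ B ^ 2 + E μ C ^ 2)) / 2) :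
    E μ A ^ 3 + E μ B ^ 3 + E μ C ^ 3 + 3 * d0 ^ 2 + 3 * E μ (fun u => (G.dg μ u - d0) ^ 2)
      + (3 * d0 - 164 / 1000) * E μ (fun u => G.wi μ s u)
      + E μ (fun u => G.wo μ s u * (6 * E μ (fun y => s u y) - 404 / 1000 - 3 * d0)) ≤ G.rho μ := by
  have hμ := h.hμ
  have k1 := h.pi_ge
  have k2 : E μ (fun u => E μ (fun y => s u y) ^ 2 + 2 * (E μ (fun y => s u y) * G.wo μ s u)
      - 2 * (E μ (fun y => s u y) * G.wi μ s u)) ≤ E μ (fun u => G.nu μ u ^ 2) := by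
    refine E_le hμ fun u => ?_
    rw [G.nu_eq (s := s)]
    nlinarith [sq_nonneg (G.wo μ s u - G.wi μ s u)]
  have k3 : E μ (fun u => E μ (fun y => s u y) ^ 2) = E μ A ^ 3 + E μ B ^ 3 + E μ C ^ 3 := by
    have : E μ (fun u => E μ (fun y => s u y) ^ 2)
        = E μ (fun u => A u * E μ A ^ 2 + B u * E μ B ^ 2 + C u * E μ C ^ 2) := by
      refine E_congr _ fun u => ?_
      rw [sa_eq h.hs]
      rcases h.hP u with ⟨a, b, c⟩ | ⟨a, b, c⟩ | ⟨a, b, c⟩ <;> rw [a, b, c] <;> ring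
    rw [this, E_add, E_add, E_mr, E_mr, E_mr]
    show E μ A * _ + E μ B * _ + E μ C * _ = _
    ring
  have k4 : E μ (fun u => (G.dg μ u - d0) ^ 2)
      = E μ (fun u => G.dg μ u ^ 2) - 2 * d0 * G.db μ + d0 ^ 2 := by
    have : E μ (fun u => (G.dg μ u - d0) ^ 2) = E μ (fun u => G.dg μ u ^ 2 - 2 * d0 * G.dg μ u + d0 ^ 2) :=
      E_congr _ fun u => by ring
    rw [this, E_add, E_sub, E_ml, E_const h.h1]; rfl
  have k5 := G.sq_eq h.h1 h.hs
  have k6 : E μ (fun u => G.wo μ s u * (6 * E μ (fun y => s u y) - 404 / 1000 - 3 * d0))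
      = 6 * E μ (fun u => E μ (fun y => s u y) * G.wo μ s u)
        - (404 / 1000 + 3 * d0) * E μ (fun u => G.wo μ s u) := by
    rw [← E_ml, ← E_ml, ← E_sub]
    exact E_congr _ fun u => by ring
  simp only [sub_mul, E_sub, E_ml] at k1
  rw [E_sub, E_add, E_ml, E_ml, k3] at k2
  have k7 : G.db μ = d0 + (E μ (fun u => G.wi μ s u) - E μ (fun u => G.wo μ s u)) / 2 := by
    linarith
  rw [G.rho_eq, k4, k6, k7]
  linarith

theorem Ctx.d0_box (h : G.Ctx μ s A B C) (d0 : ℝ)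
    (hd : d0 = (1 - (E μ A ^ 2 + E μ B ^ 2 + E μ C ^ 2)) / 2) :
    1 / 3 - 89 / 10000 ≤ d0 ∧ d0 ≤ 1 / 3 := by
  have k1 := h.sqle
  have k2 := Esum h.h1 h.hP
  have k3 : 1 / 3 ≤ E μ A ^ 2 + E μ B ^ 2 + E μ C ^ 2 := by
    nlinarith [sq_nonneg (E μ A - 1 / 3), sq_nonneg (E μ B - 1 / 3), sq_nonneg (E μ C - 1 / 3)]
  constructor <;> linarith

theorem Ctx.wo_ge (h : G.Ctx μ s A B C) (d0 : ℝ) (hd : d0 ≤ 1 / 3) :
    E (fun x => μ x * A x) (fun x => E (fun x => μ x * B x) fun y => G.n x y)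
        * (6 * (E μ A + E μ B) - 808 / 1000 - 6 * d0)
      ≤ E μ (fun u => G.wo μ s u * (6 * E μ (fun y => s u y) - 404 / 1000 - 3 * d0)) := by
  have hμ := h.hμ
  obtain ⟨κ, hκ⟩ : ∃ κ : V → ℝ, ∀ u, κ u = 6 * E μ (fun y => s u y) - 404 / 1000 - 3 * d0 :=
    ⟨_, fun _ => rfl⟩
  obtain ⟨K, hK⟩ : ∃ K, K = 6 * (E μ A + E μ B) - 808 / 1000 - 6 * d0 := ⟨_, rfl⟩
  simp only [← hκ]
  rw [← hK]
  have e1 : 2 * E μ (fun u => G.wo μ s u * κ u) = E μ (fun x => E μ fun y =>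
      G.n x y * (1 - s x y) * κ x + G.n y x * (1 - s y x) * κ y) := by
    simp only [E_add]
    rw [E_comm μ μ (fun x y => G.n y x * (1 - s y x) * κ y)]
    simp only [E_mr]
    unfold wo; ring
  have e2 : 2 * (E (fun x => μ x * A x) (fun x => E (fun x => μ x * B x) fun y => G.n x y) * K)
      = E μ (fun x => E μ fun y => A x * (B y * G.n x y) * K + A y * (B x * G.n y x) * K) := by
    simp only [E_add]
    rw [E_comm μ μ (fun x y => A y * (B x * G.n y x) * K)]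
    simp only [E_mr, E_ml, E_wt]
    ring
  have k : E μ (fun x => E μ fun y => A x * (B y * G.n x y) * K + A y * (B x * G.n y x) * K) ≤
      E μ (fun x => E μ fun y =>
      G.n x y * (1 - s x y) * κ x + G.n y x * (1 - s y x) * κ y) := by
    refine E_le hμ fun x => E_le hμ fun y => ?_
    have b1 := h.box
    have b2 := h.rot.box
    have b3 := h.rot.rot.box
    have k2 := Esum h.h1 h.hP
    rw [hκ, hκ, sa_eq h.hs, sa_eq h.hs, G.nsymm y x, h.hs.symm y x, h.hs x y, hK]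
    rcases h.hP x with ⟨a, b, c⟩ | ⟨a, b, c⟩ | ⟨a, b, c⟩ <;>
    rcases h.hP y with ⟨a', b', c'⟩ | ⟨a', b', c'⟩ | ⟨a', b', c'⟩ <;>
    rcases G.n01 x y with n1 | n1 <;>
    rw [a, b, c, a', b', c', n1] <;> linarith [b1.2, b2.2, b3.2]
  linarith

theorem Ctx.wi_ge (h : G.Ctx μ s A B C) :
    2 * (G.wa (fun x => μ x * A x) + G.wa (fun x => μ x * B x)) ≤ E μ (fun u => G.wi μ s u) := by
  have hμ := h.hμ
  have e : 2 * (G.wa (fun x => μ x * A x) + G.wa (fun x => μ x * B x))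
      = E μ (fun x => E μ fun y => A x * (A y * (1 - G.n x y)) + B x * (B y * (1 - G.n x y))) := by
    unfold wa
    simp only [E_add, E_ml, E_wt]
    ring
  rw [e]
  refine E_le hμ fun x => E_le hμ fun y => ?_
  rw [h.hs]
  have := mul_nonneg (mul_nonneg (h.hP.rot.rot.nonneg x) (h.hP.rot.rot.nonneg y))
    (sub_nonneg.mpr (G.n_le x y))
  linarith

theorem wa_eq (f : V → ℝ) : E f (fun x => E f (G.r x)) = G.wa f := by
  unfold wa
  have e : E f (fun x => E f fun y => 1 - G.n x y) = E f (fun x => E f fun y => G.r x y + G.r y x) :=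
    E_congr _ fun x => E_congr _ fun y => by have := G.tot x y; linarith
  rw [e]
  simp only [E_add]
  rw [E_comm f f (fun x y => G.r y x)]
  show _ = (E f (fun x => E f (G.r x)) + E f (fun x => E f (G.r x))) / 2
  ring

theorem Ctx.var_ge (h : G.Ctx μ s A B C) (d0 : ℝ) (hg : 0 ≤ d0 - E μ C) :
    E (fun x => μ x * A x) (fun x => pp (d0 - E μ C - E (fun x => μ x * B x) (G.r x)))
      + E (fun x => μ x * B x) (fun x => pp (d0 - E μ C - E (fun x => μ x * A x) (G.r x)))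
      - 2 * (d0 - E μ C) * (G.wa (fun x => μ x * A x) + G.wa (fun x => μ x * B x))
      ≤ E μ (fun u => (G.dg μ u - d0) ^ 2) := by
  have hμ := h.hμ
  rw [← wa_eq, ← wa_eq, E_wt μ A, E_wt μ B, E_wt μ A, E_wt μ B, ← E_add, ← E_add, ← E_ml, ← E_sub]
  refine E_le hμ fun x => ?_
  have nA : 0 ≤ E (fun x => μ x * A x) (G.r x) :=
    E_nonneg (fun y => mul_nonneg (hμ y) (h.hP.nonneg y)) (G.r_nonneg x)
  have nB : 0 ≤ E (fun x => μ x * B x) (G.r x) :=
    E_nonneg (fun y => mul_nonneg (hμ y) (h.hP.rot.nonneg y)) (G.r_nonneg x)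
  have k : G.dg μ x ≤ E (fun x => μ x * A x) (G.r x) + E (fun x => μ x * B x) (G.r x) + E μ C := by
    rw [E_wt, E_wt, ← E_add, ← E_add]
    refine E_le hμ fun y => ?_
    have := G.r_le x y
    rcases h.hP y with ⟨a, b, c⟩ | ⟨a, b, c⟩ | ⟨a, b, c⟩ <;> rw [a, b, c] <;> linarith
  rcases h.hP x with ⟨a, b, c⟩ | ⟨a, b, c⟩ | ⟨a, b, c⟩ <;> rw [a, b]
  · have := ar_deg k nA nB hg
    linarith
  · have := ar_deg (d := G.dg μ x) (c := E μ C) (by linarith) nB nA hg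
    linarith
  · have := sq_nonneg (G.dg μ x - d0)
    linarith

end OG
end Pool.Agent.H301Z.FdF
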