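import Pool.Agent.H301Z.FdF.Arith

set_option autoImplicit false
open Finset

namespace Pool.Agent.H301Z.FdF
namespace OG

variable {V : Type} [Fintype V] (G : OG V) (μ : V → ℝ)

noncomputable def nu (u : V) : ℝ := E μ (fun y => G.n u y)
noncomputable def dg (u : V) : ℝ := E μ (fun y => G.r u y)
noncomputable def db : ℝ := E μ (fun u => G.dg μ u)
noncomputable def DD (u : V) : ℝ := E μ (fun y => E μ fun z => G.e u y z)
noncomputable def rho : ℝ := E μ (fun u => G.DD μ u)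
noncomputable def p1 (u : V) : ℝ := E μ (fun y => E μ fun z => G.n u y * G.n y z * (1 - G.n u z))

theorem DD_eq (u : V) : G.DD μ u = G.nu μ u ^ 2 + 2 * G.p1 μ u + G.dg μ u ^ 2
    + 2 * E μ (fun y => G.r y u * G.dg μ y) := by
  have e1 : G.DD μ u = E μ (fun y => E μ fun z => G.n u y * G.n u z)
      + E μ (fun y => E μ fun z => G.n u y * G.n y z * (1 - G.n u z))
      + E μ (fun y => E μ fun z => G.n u z * G.n z y * (1 - G.n u y))
      + E μ (fun y => E μ fun z => G.r u y * G.r u z)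
      + E μ (fun y => E μ fun z => G.r y u * G.r y z)
      + E μ (fun y => E μ fun z => G.r z u * G.r z y) := by
    simp only [← E_add]
    refine E_congr _ fun y => E_congr _ fun z => ?_
    rw [G.nsymm z y]; unfold e; ring
  have e2 : E μ (fun y => E μ fun z => G.n u z * G.n z y * (1 - G.n u y)) = G.p1 μ u := by
    rw [E_comm]; rfl
  have e3 : E μ (fun y => E μ fun z => G.r z u * G.r z y) = E μ (fun y => E μ fun z => G.r y u * G.r y z) := by
    rw [E_comm]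
  have e4 : E μ (fun y => E μ fun z => G.r y u * G.r y z) = E μ (fun y => G.r y u * G.dg μ y) := by
    simp only [E_ml]; rfl
  rw [e1, e2, e3, e4, ← E_mul_E, ← E_mul_E]
  unfold nu dg p1
  ring

theorem rho_eq : G.rho μ = E μ (fun u => G.nu μ u ^ 2) + 2 * E μ (fun u => G.p1 μ u)
    + 3 * E μ (fun u => G.dg μ u ^ 2) := by
  unfold rho
  simp only [DD_eq, E_add, E_ml]
  have : E μ (fun u => E μ (fun y => G.r y u * G.dg μ y)) = E μ (fun u => G.dg μ u ^ 2) := by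
    rw [E_comm]
    refine E_congr _ fun y => ?_
    rw [E_mr, sq]; rfl
  rw [this]; ring

variable {μ}

theorem p1_nonneg (hμ : ∀ x, 0 ≤ μ x) (u : V) : 0 ≤ G.p1 μ u :=
  E_nonneg hμ fun y => E_nonneg hμ fun z =>
    mul_nonneg (mul_nonneg (G.n_nonneg _ _) (G.n_nonneg _ _)) (sub_nonneg.mpr (G.n_le _ _))

theorem din_eq (h1 : ∑ x, μ x = 1) (u : V) :
    E μ (fun y => G.r y u) = 1 - G.nu μ u - G.dg μ u := by
  have : E μ (fun y => G.r y u) = E μ (fun y => 1 - G.n u y - G.r u y) :=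
    E_congr _ fun y => by have := G.tot u y; linarith
  rw [this, E_sub, E_sub, E_const h1]; rfl

theorem Enu_eq (h1 : ∑ x, μ x = 1) : E μ (fun u => G.nu μ u) = 1 - 2 * G.db μ := by
  have h : E μ (fun u => E μ (fun y => G.r y u)) = G.db μ := by rw [E_comm]; rfl
  simp only [G.din_eq h1, E_sub, E_const h1] at h
  unfold db at h ⊢
  linarith

theorem db_le (hμ : ∀ x, 0 ≤ μ x) (h1 : ∑ x, μ x = 1) (hρ : G.rho μ < 4 / 9) : G.db μ ≤ 1 / 3 := by
  have a1 := E_sq hμ h1 (fun u => G.nu μ u)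
  have a2 := E_sq hμ h1 (fun u => G.dg μ u)
  have a3 := E_nonneg hμ (G.p1_nonneg hμ)
  rw [G.rho_eq] at hρ
  rw [G.Enu_eq h1] at a1
  have e : E μ (fun u => G.dg μ u) = G.db μ := rfl
  have e2 : E μ (fun u => G.p1 μ u) = E μ (G.p1 μ) := rfl
  rw [e] at a2
  rw [e2] at hρ
  by_contra hh
  push Not at hh
  nlinarith

theorem ar_v1 {ν d p D q V : ℝ} (hV : V ≤ 18 / 100000) (hD : 1 / 3 - 64 / 10000 ≤ D) (hD' : D ≤ 1 / 3)
    (hq : D * (1 - ν - d) - 19 * V - 1 / 304 ≤ q) (h : ν ^ 2 + 2 * p + d ^ 2 + 2 * q < 4 / 9) :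
    (ν - D) ^ 2 + 2 * p ≤ 1778 / 100000 := by
  have a1 := sq_nonneg (d - D)
  have a2 := mul_nonneg (show 0 ≤ D - (1 / 3 - 64 / 10000) by linarith) (show 0 ≤ 1 / 3 - D by linarith)
  nlinarith

theorem vertex1 (hμ : ∀ x, 0 ≤ μ x) (h1 : ∑ x, μ x = 1) (hρ : G.rho μ < 4 / 9)
    (hS1 : 1 / 3 - 64 / 10000 ≤ G.db μ)
    (hS2 : E μ (fun u => G.dg μ u ^ 2) - G.db μ ^ 2 ≤ 18 / 100000) (u : V)
    (hK : G.DD μ u ≤ G.rho μ) :
    (G.nu μ u - G.db μ) ^ 2 + 2 * G.p1 μ u ≤ 1778 / 100000 := by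
  refine ar_v1 (d := G.dg μ u) (q := E μ (fun y => G.r y u * G.dg μ y)) hS2 hS1 (G.db_le hμ h1 hρ) ?_
    (by rw [← G.DD_eq]; linarith)
  have k : E μ (fun y => G.db μ * G.r y u + (1 / 2 + 38 * G.db μ) * G.dg μ y - 19 * G.dg μ y ^ 2
      - (G.db μ / 2 + 19 * G.db μ ^ 2 + 1 / 304)) ≤ E μ (fun y => G.r y u * G.dg μ y) := by
    refine E_le hμ fun y => ?_
    rcases G.r01 y u with h | h <;> rw [h]
    · nlinarith [sq_nonneg (G.dg μ y - G.db μ - 1 / 76)]
    · nlinarith [sq_nonneg (G.dg μ y - G.db μ + 1 / 76)]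
  rw [E_sub, E_sub, E_add, E_ml, E_ml, E_ml, E_const h1, G.din_eq h1] at k
  have e : E μ (fun u => G.dg μ u) = G.db μ := rfl
  rw [e] at k
  linarith

end OG

/-- indicator functions of a partition into three parts -/
def IsPart {V : Type} (A B C : V → ℝ) : Prop :=
  ∀ x, (A x = 1 ∧ B x = 0 ∧ C x = 0) ∨ (A x = 0 ∧ B x = 1 ∧ C x = 0) ∨ (A x = 0 ∧ B x = 0 ∧ C x = 1)

theorem IsPart.swap {V : Type} {A B C : V → ℝ} (h : IsPart A B C) : IsPart B A C := by
  intro x; have := h x; tauto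

theorem IsPart.rot {V : Type} {A B C : V → ℝ} (h : IsPart A B C) : IsPart B C A := by
  intro x; have := h x; tauto

theorem IsPart.sum {V : Type} {A B C : V → ℝ} (h : IsPart A B C) (x : V) : A x + B x + C x = 1 := by
  rcases h x with ⟨a, b, c⟩ | ⟨a, b, c⟩ | ⟨a, b, c⟩ <;> rw [a, b, c] <;> norm_num

theorem IsPart.nonneg {V : Type} {A B C : V → ℝ} (h : IsPart A B C) (x : V) : 0 ≤ A x := by
  rcases h x with ⟨a, b, c⟩ | ⟨a, b, c⟩ | ⟨a, b, c⟩ <;> rw [a] <;> norm_num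

/-- `s` is the same-part indicator -/
def IsS {V : Type} (A B C : V → ℝ) (s : V → V → ℝ) : Prop :=
  ∀ x y, s x y = A x * A y + B x * B y + C x * C y

theorem IsS.swap {V : Type} {A B C : V → ℝ} {s : V → V → ℝ} (h : IsS A B C s) : IsS B A C s := by
  intro x y; rw [h]; ring

theorem IsS.rot {V : Type} {A B C : V → ℝ} {s : V → V → ℝ} (h : IsS A B C s) : IsS B C A s := by
  intro x y; rw [h]; ring

theorem IsS.symm {V : Type} {A B C : V → ℝ} {s : V → V → ℝ} (h : IsS A B C s) (x y : V) :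
    s x y = s y x := by rw [h, h]; ring

theorem IsS.s01 {V : Type} {A B C : V → ℝ} {s : V → V → ℝ} (h : IsS A B C s) (hP : IsPart A B C)
    (x y : V) : s x y = 0 ∨ s x y = 1 := by
  rw [h]
  rcases hP x with ⟨a, b, c⟩ | ⟨a, b, c⟩ | ⟨a, b, c⟩ <;>
  rcases hP y with ⟨a', b', c'⟩ | ⟨a', b', c'⟩ | ⟨a', b', c'⟩ <;> rw [a, b, c, a', b', c'] <;> norm_num

theorem IsS.tri {V : Type} {A B C : V → ℝ} {s : V → V → ℝ} (h : IsS A B C s) (hP : IsPart A B C)
    (x y z : V) : (s x y = 1 ∧ s x z = 1 ∧ s y z = 1) ∨ (s x y = 1 ∧ s x z = 0 ∧ s y z = 0) ∨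
      (s x y = 0 ∧ s x z = 1 ∧ s y z = 0) ∨ (s x y = 0 ∧ s x z = 0 ∧ s y z = 1) ∨
      (s x y = 0 ∧ s x z = 0 ∧ s y z = 0) := by
  rw [h, h, h]
  rcases hP x with ⟨a, b, c⟩ | ⟨a, b, c⟩ | ⟨a, b, c⟩ <;>
  rcases hP y with ⟨a', b', c'⟩ | ⟨a', b', c'⟩ | ⟨a', b', c'⟩ <;>
  rcases hP z with ⟨a'', b'', c''⟩ | ⟨a'', b'', c''⟩ | ⟨a'', b'', c''⟩ <;>
  rw [a, b, c, a', b', c', a'', b'', c''] <;> norm_num

namespace OG
variable {V : Type} [Fintype V] (G : OG V) (μ : V → ℝ) (s : V → V → ℝ)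

noncomputable def wi (u : V) : ℝ := E μ (fun y => s u y * (1 - G.n u y))
noncomputable def wo (u : V) : ℝ := E μ (fun y => G.n u y * (1 - s u y))

variable {μ s} {A B C : V → ℝ}

theorem wi_nonneg (hμ : ∀ x, 0 ≤ μ x) (hP : IsPart A B C) (hs : IsS A B C s) (u : V) :
    0 ≤ G.wi μ s u := E_nonneg hμ fun y => by
  have := G.n_le u y
  rcases hs.s01 hP u y with h | h <;> rw [h] <;> linarith

theorem wo_nonneg (hμ : ∀ x, 0 ≤ μ x) (hP : IsPart A B C) (hs : IsS A B C s) (u : V) :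
    0 ≤ G.wo μ s u := E_nonneg hμ fun y => by
  have := G.n_nonneg u y
  rcases hs.s01 hP u y with h | h <;> rw [h] <;> linarith

theorem nu_eq (u : V) : G.nu μ u = E μ (fun y => s u y) - G.wi μ s u + G.wo μ s u := by
  unfold nu wi wo
  rw [← E_sub, ← E_add]
  exact E_congr _ fun y => by ring

omit G in
theorem sa_eq (hs : IsS A B C s) (u : V) :
    E μ (fun y => s u y) = A u * E μ A + B u * E μ B + C u * E μ C := by
  simp only [hs u, E_add, E_ml]

omit G in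
theorem Esa (hs : IsS A B C s) :
    E μ (fun u => E μ (fun y => s u y)) = E μ A ^ 2 + E μ B ^ 2 + E μ C ^ 2 := by
  simp only [sa_eq hs, E_add, E_mr]
  ring

omit G in
theorem Esum (h1 : ∑ x, μ x = 1) (hP : IsPart A B C) : E μ A + E μ B + E μ C = 1 := by
  rw [← E_add, ← E_add, E_congr μ hP.sum, E_const h1]

theorem sq_eq (h1 : ∑ x, μ x = 1) (hs : IsS A B C s) :
    E μ A ^ 2 + E μ B ^ 2 + E μ C ^ 2 = 1 - 2 * G.db μ + E μ (fun u => G.wi μ s u)
      - E μ (fun u => G.wo μ s u) := by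
  rw [← G.Enu_eq h1, ← Esa hs]
  simp only [G.nu_eq (s := s), E_add, E_sub]
  ring

theorem p1_ge (hμ : ∀ x, 0 ≤ μ x) (hP : IsPart A B C) (hs : IsS A B C s) (u : V) :
    2 * (E μ (fun y => A y * G.n u y) * (E μ A - E μ (fun y => A y * G.n u y)))
    + 2 * (E μ (fun y => B y * G.n u y) * (E μ B - E μ (fun y => B y * G.n u y)))
    + 2 * (E μ (fun y => C y * G.n u y) * (E μ C - E μ (fun y => C y * G.n u y)))
    - E μ (fun u => G.wi μ s u) ≤ 2 * G.p1 μ u := by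
  have e0 : ∀ J : V → ℝ, 2 * (E μ (fun y => J y * G.n u y) * (E μ J - E μ (fun y => J y * G.n u y)))
      = E μ (fun y => E μ fun z => (J y * G.n u y) * (J z - J z * G.n u z)
        + (J y - J y * G.n u y) * (J z * G.n u z)) := by
    intro J
    simp only [E_add, E_sub, E_ml, E_mr]
    ring
  have e1 : 2 * G.p1 μ u = E μ (fun y => E μ fun z => G.n u y * G.n y z * (1 - G.n u z)
      + G.n u z * G.n z y * (1 - G.n u y)) := by
    simp only [E_add]
    rw [E_comm μ μ (fun y z => G.n u z * G.n z y * (1 - G.n u y))]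
    unfold p1; ring
  rw [e0, e0, e0, e1]
  unfold wi
  simp only [← E_add, ← E_sub]
  refine E_le hμ fun y => E_le hμ fun z => ?_
  rw [G.nsymm z y, hs y z]
  rcases hP y with ⟨a, b, c⟩ | ⟨a, b, c⟩ | ⟨a, b, c⟩ <;>
  rcases hP z with ⟨a', b', c'⟩ | ⟨a', b', c'⟩ | ⟨a', b', c'⟩ <;>
  rcases G.n01 u y with n1 | n1 <;> rcases G.n01 u z with n2 | n2 <;>
  rcases G.n01 y z with n3 | n3 <;>
  rw [a, b, c, a', b', c', n1, n2, n3] <;> norm_num

end OG
end Pool.Agent.H301Z.FdF
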