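import Pool.Agent.H301Z.FdF.Cost

set_option autoImplicit false
open Finset

namespace Pool.Agent.H301Z.FdF

theorem ar_F {a b c d0 g p : ℝ} (hs : a + b + c = 1) (hd : d0 = (1 - (a ^ 2 + b ^ 2 + c ^ 2)) / 2)
    (hg : g = 1 / 3 - c) (hp : p = (a - 1 / 3) * (b - 1 / 3)) :
    a ^ 3 + b ^ 3 + c ^ 3 + 3 * d0 ^ 2 = 4 / 9 - (3 * (g * p) - 3 * (g ^ 2 - p) ^ 2)
      ∧ d0 = 1 / 3 - (g ^ 2 - p) ∧ p ≤ g ^ 2 / 4 := by
  have hc : c = 1 - a - b := by linarith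
  subst hc hd hg hp
  refine ⟨by ring, by ring, ?_⟩
  nlinarith [sq_nonneg (a - b)]

theorem ar_G {g p d0 Wi F : ℝ} (g0 : 0 ≤ g) (g1 : g ≤ 109 / 1000) (p1 : p ≤ g ^ 2 / 4)
    (hd : d0 = 1 / 3 - (g ^ 2 - p)) (hd' : 1 / 3 - 89 / 10000 ≤ d0) (W0 : 0 ≤ Wi)
    (hF : F = 3 * (g * p) - 3 * (g ^ 2 - p) ^ 2) (h : (3 * d0 - 164 / 1000) * Wi < F)
    (h2 : 1 - 2 * d0 ≤ 1 / 3 + 128 / 10000 + Wi) :
    0 < p ∧ g ≤ 967 / 10000 ∧ 1 / 3 - 701 / 100000 ≤ d0 := by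
  have k1 : 809 / 1000 * Wi ≤ (3 * d0 - 164 / 1000) * Wi :=
    mul_le_mul_of_nonneg_right (by linarith) W0
  have k2 := sq_nonneg (g ^ 2 - p)
  have p0 : 0 < p := by
    by_contra hh
    push Not at hh
    have := mul_nonneg g0 (show 0 ≤ -p by linarith)
    linarith
  have k3 : g * p ≤ g * (g ^ 2 / 4) := mul_le_mul_of_nonneg_left p1 g0
  have k4 : g ^ 3 ≤ (109 / 1000) ^ 3 := pow_le_pow_left₀ g0 g1 3
  have k5 : g * (g ^ 2 / 4) = g ^ 3 / 4 := by ring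
  norm_num at k4
  have k6 : Wi ≤ 1201 / 1000000 := by linarith
  have k7 : g ^ 2 ≤ (967 / 10000) ^ 2 := by
    norm_num
    linarith
  exact ⟨p0, (abs_le_of_sq_le_sq' k7 (by norm_num)).2, by linarith⟩

namespace OG

variable {V : Type} [Fintype V] [DecidableEq V] {G : OG V}
variable {μ : V → ℝ} {s : V → V → ℝ} {A B C : V → ℝ}

theorem Ctx.false_min (h : G.Ctx μ s A B C) (hca : E μ C ≤ E μ A) (hcb : E μ C ≤ E μ B) : False := by
  have hμ := h.hμ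
  obtain ⟨d0, hd⟩ : ∃ d0, d0 = (1 - (E μ A ^ 2 + E μ B ^ 2 + E μ C ^ 2)) / 2 := ⟨_, rfl⟩
  obtain ⟨g, hg⟩ : ∃ g, g = 1 / 3 - E μ C := ⟨_, rfl⟩
  obtain ⟨p, hp⟩ : ∃ p, p = (E μ A - 1 / 3) * (E μ B - 1 / 3) := ⟨_, rfl⟩
  have hs := Esum h.h1 h.hP
  obtain ⟨F1, F2, F3⟩ := ar_F hs hd hg hp
  have R := h.rho_ge d0 hd
  have D := h.d0_box d0 hd
  have X := h.wo_ge d0 D.2
  have Wi := h.wi_ge
  have hA : ∀ y, 0 ≤ μ y * A y := fun y => mul_nonneg (hμ y) (h.hP.nonneg y)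
  have hB : ∀ y, 0 ≤ μ y * B y := fun y => mul_nonneg (hμ y) (h.hP.rot.nonneg y)
  have wA := G.wa_nonneg hA
  have wB := G.wa_nonneg hB
  have nAB := G.cross_nonneg hA hB
  have V0 : 0 ≤ E μ (fun u => (G.dg μ u - d0) ^ 2) := E_nonneg hμ fun u => sq_nonneg _
  have bc := h.rot.rot.box
  have g0 : 0 ≤ g := by linarith
  have hρ := h.hρ
  have X0 := mul_le_mul_of_nonneg_left
    (show 1 ≤ 6 * (E μ A + E μ B) - 808 / 1000 - 6 * d0 by linarith [D.2]) nAB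
  have S := G.sq_eq h.h1 h.hs
  obtain ⟨p0, g1, d1⟩ := ar_G (Wi := E μ (fun u => G.wi μ s u)) g0 (by linarith [bc.1]) F3 F2 D.1 h.Wi0 rfl
    (by linarith) (by linarith [h.Wo0, h.hS1])
  have gg : g ^ 2 ≤ g := by nlinarith
  have hγ : 0 ≤ d0 - E μ C := by linarith
  have hγ' : d0 - E μ C ≤ g := by nlinarith
  have Vg := h.var_ge d0 hγ
  obtain ⟨T, hT⟩ : ∃ T, T = G.T (fun x => μ x * A x) (fun x => μ x * B x) := ⟨_, rfl⟩
  have T0 : 0 ≤ T := by rw [hT]; exact G.T_nonneg hA hB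
  obtain ⟨δ, δ0, hδ⟩ : ∃ δ : ℝ, 0 < δ ∧ 19 / 100 * δ ^ 2 = T + (4 / 9 - G.rho μ) / 2 := by
    refine ⟨Real.sqrt ((T + (4 / 9 - G.rho μ) / 2) * (100 / 19)), Real.sqrt_pos.mpr (by linarith), ?_⟩
    rw [Real.sq_sqrt (by linarith)]
    ring
  have Y := G.lemY δ0 _ _ _ hA hB le_rfl (by rw [← hT]; linarith)
  have ab : 1 / 3 ≤ E μ A ∧ 1 / 3 ≤ E μ B := by
    rw [hp] at p0
    rcases pos_and_pos_or_neg_and_neg_of_mul_pos p0 with ⟨q1, q2⟩ | ⟨q1, q2⟩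
    · constructor <;> linarith
    · exfalso; linarith
  have mA : E (fun x => μ x * A x) (fun _ => 1) = E μ A := by
    rw [E_wt]; exact E_congr _ fun x => mul_one _
  have mB : E (fun x => μ x * B x) (fun _ => 1) = E μ B := by
    rw [E_wt]; exact E_congr _ fun x => mul_one _
  have Z := ar_final (δ := δ) (y := d0 - E μ C - δ)
    (Z := 3 * (E (fun x => μ x * A x) (fun x => pp (d0 - E μ C - E (fun x => μ x * B x) (G.r x)))
      + E (fun x => μ x * B x) (fun x => pp (d0 - E μ C - E (fun x => μ x * A x) (G.r x)))))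
    g0 g1 F3 (by linarith)
    (by
      have := E_nonneg hA fun x => pp_nonneg (d0 - E μ C - E (fun x => μ x * B x) (G.r x))
      have := E_nonneg hB fun x => pp_nonneg (d0 - E μ C - E (fun x => μ x * A x) (G.r x))
      linarith)
    (by
      intro hy
      have := Y (d0 - E μ C - δ) (d0 - E μ C - δ) hy (by rw [mB]; linarith [ab.2]) hy
        (by rw [mA]; linarith [ab.1])
      simp only [sub_add_cancel] at this
      have e : hh (d0 - E μ C - δ) (d0 - E μ C - δ) = 2 / 3 * (d0 - E μ C - δ) ^ 3 := by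
        unfold hh; ring
      rw [e] at this
      linarith)
  have K1 : (3 * d0 - 164 / 1000) * (2 * (G.wa (fun x => μ x * A x) + G.wa (fun x => μ x * B x)))
      ≤ (3 * d0 - 164 / 1000) * E μ (fun u => G.wi μ s u) :=
    mul_le_mul_of_nonneg_left Wi (by linarith)
  have K2 := mul_le_mul_of_nonneg_right
    (show 1 ≤ 2 * (3 * d0 - 164 / 1000) - 6 * (d0 - E μ C) by linarith) (add_nonneg wA wB)
  unfold OG.T at hT
  linarith

theorem Ctx.false (h : G.Ctx μ s A B C) : False := by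
  rcases le_total (E μ A) (E μ B) with h1 | h1
  · rcases le_total (E μ A) (E μ C) with h2 | h2
    · exact h.rot.false_min h1 h2
    · exact h.false_min h2 (h2.trans h1)
  · rcases le_total (E μ B) (E μ C) with h2 | h2
    · exact h.rot.rot.false_min h2 h1
    · exact h.false_min (h2.trans h1) h2

end OG
end Pool.Agent.H301Z.FdF
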