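import Pool.Agent.Helper533.Fdf.Bd
import Pool.Agent.H301Z.FdF.Basic

set_option autoImplicit false
set_option maxRecDepth 100000
open Finset

namespace Pool.Agent.H301Z.FdF
open Pool.Agent.Helper533.Fdf

def TT : ℕ := 0x16ad5b86e76c4cc65a248
def SG : ℕ := 0x1a8a2ee2d162cc0f66926a0e1e6ab07248357a45cb41459b4e0d51c81c564f624c306af48b96828b369c1aa39038ac9ec49860d671183d0735ed57358520e9392d491041ace2307a0e6bdaae6b0a41d2725a92208357a45cb41459b4e0d51c81c564f624c306a28cc0f879aee2d9a4ab07458a6a0c920d5e99b4f15945cb8354f6250511c8130c1a8a2ee2d162cc0f66926a0e1e6ab0724835146607c3cd7716cd25583a2c535064906b38bdab49ca307b9ac5a928398a418820d45177168b16607b34935070f355839241abd3369e2b28b9706a9ec4a0a23902618359c5ed5a4e5183dcd62d4941cc520c4106af48b96828b369c1aa39038ac9ec49860d5e99b4f15945cb8354f6250511c8130c1abd3369e2b28b9706a9ec4a0a2390261835146607c3cd7716cd25583a2c535064906b38bdab49ca307b9ac5a928398a418820d671183d0735ed57358520e9392d491041abd22e5a0a2cda706a8e40e2b27b12618359c5ed5a4e5183dcd62d4941cc520c4106b38bdab49ca307b9ac5a928398a418820d671183d0735ed57358520e9392d491041abd3369e2b28b9706a9ec4a0a23902618359c5ed5a4e5183dcd62d4941cc520c4106b38bdab49ca307b9ac5a928398a418820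
def CN : ℕ := 0x6cb6490d96c920904800365b2486cb64904824000964b00d2c960180c0602d96c921b2d92412090006cb6490d96c92090480012c9601a592c030180c0490486cd2090d980000da482436690486cc00006d00c06de0180dbc020125365b2486cb64904824001b2d924365b24824120004b25806964b00c0603016cb6490d96c920904800365b2486cb64904824000964b00d2c960180c0602482436690486cc00006d24121b34824366000036806036f00c06de010092890480012090006cf66da4824000904800367b36d00c06020180c04de6f2512090002412000d9ecdb490480012090006cf66da0180c040301809bcde4a00000da00001b4da6d6d000006d00000da6d36b68020125004024a2512926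
def tt (c : ℕ) : ℕ := Nat.mod (Nat.shiftRight TT (Nat.mul 3 c)) 8
def sg (c i : ℕ) : ℕ := Nat.mod (Nat.shiftRight SG (Nat.mul 5 (Nat.add (Nat.mul 27 c) i))) 32
def cn (i j : ℕ) : ℕ := Nat.mod (Nat.shiftRight CN (Nat.mul 3 (Nat.add (Nat.mul 27 i) j))) 8
def gq (T t i j : ℕ) : ℕ := Nat.mod (Nat.shiftRight T (Nat.mul 60 (Nat.add (Nat.mul 729 t) (Nat.add (Nat.mul 27 i) j)))) 1152921504606846976
def gl (T t i k : ℕ) : ℕ := Nat.mod (Nat.shiftRight T (Nat.mul 28 (Nat.add (Nat.mul 729 t) (Nat.add (Nat.mul 27 i) k)))) 268435456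
def hq (T i j : ℕ) : ℕ := Nat.mod (Nat.shiftRight T (Nat.mul 60 (Nat.add (Nat.mul 27 i) j))) 1152921504606846976
def hl (T i k : ℕ) : ℕ := Nat.mod (Nat.shiftRight T (Nat.mul 28 (Nat.add (Nat.mul 15 i) k))) 268435456
def go (T c : ℕ) : ℕ := Nat.mod (Nat.shiftRight T (Nat.mul 60 c)) 1152921504606846976

def gg3 (TQ TL t i j : ℕ) : Bool :=
  Nat.beq (Nat.add (nsum 27 fun k => Nat.mul (gl TL t i k) (gl TL t j k)) 774619135907725312)
    (Nat.add (gq TQ t i j) (Nat.mul 134217728 (nsum 27 fun k => Nat.add (gl TL t i k) (gl TL t j k))))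
def gg1 (T1 TL i j : ℕ) : Bool :=
  Nat.beq (Nat.add (nsum 15 fun k => Nat.mul (hl TL i k) (hl TL j k)) 558446353793941504)
    (Nat.add (hq T1 i j) (Nat.mul 134217728 (nsum 15 fun k => Nat.add (hl TL i k) (hl TL j k))))
def ck3 (TQ TL t : ℕ) : Bool := nall 27 fun i => nall 27 fun j => gg3 TQ TL t i j
def ck1 (T1 TL : ℕ) : Bool := nall 27 fun i => nall 27 fun j => gg1 T1 TL i j

def leafG (q3 : ℕ → ℕ → ℕ → ℕ → ℕ) (q1 : ℕ → ℕ → ℕ) (d01 e01 d02 e02 d03 e03 d04 e04 d12 e12 d13 e13 d14 e14 d23 e23 d24 e24 d34 e34 : ℕ) : ℕ :=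
  Nat.add (Nat.add (q3 (cd d01 d02 d12) (cd d03 d13 d23) (cd d04 d14 d24) d34)
    (Nat.add (q3 (cd d01 d03 d13) (cd d02 d12 e23) (cd d04 d14 d34) d24)
    (Nat.add (q3 (cd d01 d04 d14) (cd d02 d12 e24) (cd d03 d13 e34) d23)
    (Nat.add (q3 (cd d02 d03 d23) (cd d01 e12 e13) (cd d04 d24 d34) d14)
    (Nat.add (q3 (cd d02 d04 d24) (cd d01 e12 e14) (cd d03 d23 e34) d13)
    (Nat.add (q3 (cd d03 d04 d34) (cd d01 e13 e14) (cd d02 e23 e24) d12)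
    (Nat.add (q3 (cd d12 d13 d23) (cd e01 e02 e03) (cd d14 d24 d34) d04)
    (Nat.add (q3 (cd d12 d14 d24) (cd e01 e02 e04) (cd d13 d23 e34) d03)
    (Nat.add (q3 (cd d13 d14 d34) (cd e01 e03 e04) (cd d12 e23 e24) d02)
    (q3 (cd d23 d24 d34) (cd e02 e03 e04) (cd e12 e13 e14) d01))))))))))
   (Nat.add (q1 (cd d01 d02 d12) (cd d03 d04 d34))
    (Nat.add (q1 (cd d01 d03 d13) (cd d02 d04 d24))
    (Nat.add (q1 (cd d01 d04 d14) (cd d02 d03 d23))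
    (Nat.add (q1 (cd e01 d12 d02) (cd d13 d14 d34))
    (Nat.add (q1 (cd e01 d13 d03) (cd d12 d14 d24))
    (Nat.add (q1 (cd e01 d14 d04) (cd d12 d13 d23))
    (Nat.add (q1 (cd e02 e12 d01) (cd d23 d24 d34))
    (Nat.add (q1 (cd e02 d23 d03) (cd e12 d24 d14))
    (Nat.add (q1 (cd e02 d24 d04) (cd e12 d23 d13))
    (Nat.add (q1 (cd e03 e13 d01) (cd e23 d34 d24))
    (Nat.add (q1 (cd e03 e23 d02) (cd e13 d34 d14))
    (Nat.add (q1 (cd e03 d34 d04) (cd e13 e23 d12))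
    (Nat.add (q1 (cd e04 e14 d01) (cd e24 e34 d23))
    (Nat.add (q1 (cd e04 e24 d02) (cd e14 e34 d13))
    (q1 (cd e04 e34 d03) (cd e14 e24 d12))))))))))))))))

def chkG (q3 : ℕ → ℕ → ℕ → ℕ → ℕ) (q1 : ℕ → ℕ → ℕ) (Bd : ℕ) (d01 e01 d02 e02 : ℕ) : Bool := A3 fun d03 e03 => A3 fun d04 e04 => A3 fun d12 e12 => A3 fun d13 e13 => A3 fun d14 e14 => A3 fun d23 e23 => A3 fun d24 e24 => A3 fun d34 e34 => or (Nat.ble 1 (cyc d01 e01 d02 e02 d03 e03 d04 e04 d12 e12 d13 e13 d14 e14 d23 e23 d24 e24 d34 e34)) (Nat.ble (leafG q3 q1 d01 e01 d02 e02 d03 e03 d04 e04 d12 e12 d13 e13 d14 e14 d23 e23 d24 e24 d34 e34) Bd)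

/-- all nine checks -/
def AllChk (q3 : ℕ → ℕ → ℕ → ℕ → ℕ) (q1 : ℕ → ℕ → ℕ) (Bd : ℕ) : Prop :=
  ∀ d e d' e', Pr d e → Pr d' e' → chkG q3 q1 Bd d e d' e' = true

theorem leafG_le (q3 : ℕ → ℕ → ℕ → ℕ → ℕ) (q1 : ℕ → ℕ → ℕ) (Bd : ℕ) (hA : AllChk q3 q1 Bd) (d01 e01 d02 e02 d03 e03 d04 e04 d12 e12 d13 e13 d14 e14 d23 e23 d24 e24 d34 e34 : ℕ) (h01 : Pr d01 e01) (h02 : Pr d02 e02) (h03 : Pr d03 e03) (h04 : Pr d04 e04) (h12 : Pr d12 e12) (h13 : Pr d13 e13) (h14 : Pr d14 e14) (h23 : Pr d23 e23) (h24 : Pr d24 e24) (h34 : Pr d34 e34)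
    (hz : cyc d01 e01 d02 e02 d03 e03 d04 e04 d12 e12 d13 e13 d14 e14 d23 e23 d24 e24 d34 e34 = 0) :
    leafG q3 q1 d01 e01 d02 e02 d03 e03 d04 e04 d12 e12 d13 e13 d14 e14 d23 e23 d24 e24 d34 e34 ≤ Bd := by
  have hc := hA d01 e01 d02 e02 h01 h02
  have h := (A3_true (A3_true (A3_true (A3_true (A3_true (A3_true (A3_true (A3_true hc h03) h04) h12) h13) h14) h23) h24) h34)
  rcases (Bool.or_eq_true _ _).mp h with h | h
  · have := Nat.le_of_ble_eq_true h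
    omega
  · exact Nat.le_of_ble_eq_true h

theorem tt_sg : (nall 27 fun c => and (Nat.ble (tt c) 6) (nall 27 fun i => Nat.ble (sg c i) 26)) = true := by
  decide +kernel

theorem tt_lt (c : ℕ) (hc : c < 27) : tt c < 7 := by
  have h := nall_true tt_sg c hc
  rw [Bool.and_eq_true] at h
  exact Nat.lt_succ_of_le (Nat.le_of_ble_eq_true h.1)

theorem sg_lt (c i : ℕ) (hc : c < 27) (hi : i < 27) : sg c i < 27 := by
  have h := nall_true tt_sg c hc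
  rw [Bool.and_eq_true] at h
  exact Nat.lt_succ_of_le (Nat.le_of_ble_eq_true (nall_true h.2 i hi))

theorem gq_eq (TQ TL t i j : ℕ) (h0 : ck3 TQ TL t = true) (hi : i < 27) (hj : j < 27) :
    (gq TQ t i j : ℝ) = ∑ k ∈ range 27, ((gl TL t i k : ℝ) - 134217728) * ((gl TL t j k : ℝ) - 134217728)
      + 288230376151711744 := by
  have h := Nat.eq_of_beq_eq_true (nall_true (nall_true h0 i hi) j hj)
  rw [nsum_eq, nsum_eq] at h
  have h2 : ((∑ k ∈ range 27, (gl TL t i k * gl TL t j k) + 774619135907725312 : ℕ) : ℤ)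
      = ((gq TQ t i j + 134217728 * ∑ k ∈ range 27, (gl TL t i k + gl TL t j k) : ℕ) : ℤ) := congrArg _ h
  push_cast at h2
  have h3 : (gq TQ t i j : ℤ) = ∑ k ∈ range 27, ((gl TL t i k : ℤ) - 134217728) * ((gl TL t j k : ℤ) - 134217728)
      + 288230376151711744 := by
    rw [expand (range 27) (fun k => gl TL t i k) (fun k => gl TL t j k) 134217728, card_range]
    push_cast
    linarith
  exact_mod_cast h3

theorem hq_eq (T1 TL i j : ℕ) (h0 : ck1 T1 TL = true) (hi : i < 27) (hj : j < 27) :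
    (hq T1 i j : ℝ) = ∑ k ∈ range 15, ((hl TL i k : ℝ) - 134217728) * ((hl TL j k : ℝ) - 134217728)
      + 288230376151711744 := by
  have h := Nat.eq_of_beq_eq_true (nall_true (nall_true h0 i hi) j hj)
  rw [nsum_eq, nsum_eq] at h
  have h2 : ((∑ k ∈ range 15, (hl TL i k * hl TL j k) + 558446353793941504 : ℕ) : ℤ)
      = ((hq T1 i j + 134217728 * ∑ k ∈ range 15, (hl TL i k + hl TL j k) : ℕ) : ℤ) := congrArg _ h
  push_cast at h2
  have h3 : (hq T1 i j : ℤ) = ∑ k ∈ range 15, ((hl TL i k : ℤ) - 134217728) * ((hl TL j k : ℤ) - 134217728)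
      + 288230376151711744 := by
    rw [expand (range 15) (fun k => hl TL i k) (fun k => hl TL j k) 134217728, card_range]
    push_cast
    linarith
  exact_mod_cast h3

variable {V : Type} (rel : V → V → ℕ)

def G3 (q3 : ℕ → ℕ → ℕ → ℕ → ℕ) (a b c d e : V) : ℕ :=
  q3 (cd (rel a b) (rel a c) (rel b c)) (cd (rel a d) (rel b d) (rel c d))
    (cd (rel a e) (rel b e) (rel c e)) (rel d e)
def G1 (q1 : ℕ → ℕ → ℕ) (a b c d e : V) : ℕ :=
  q1 (cd (rel a b) (rel a c) (rel b c)) (cd (rel a d) (rel a e) (rel d e))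

theorem pointwiseG (q3 : ℕ → ℕ → ℕ → ℕ → ℕ) (q1 : ℕ → ℕ → ℕ) (Bd : ℕ) (hA : AllChk q3 q1 Bd)
    (h : ∀ x y, Pr (rel x y) (rel y x)) (hz : NoC4 rel) (x : Fin 5 → V) :
    (G3 rel q3 (x 0) (x 1) (x 2) (x 3) (x 4) +
      (G3 rel q3 (x 0) (x 1) (x 3) (x 2) (x 4) +
      (G3 rel q3 (x 0) (x 1) (x 4) (x 2) (x 3) +
      (G3 rel q3 (x 0) (x 2) (x 3) (x 1) (x 4) +
      (G3 rel q3 (x 0) (x 2) (x 4) (x 1) (x 3) +
      (G3 rel q3 (x 0) (x 3) (x 4) (x 1) (x 2) +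
      (G3 rel q3 (x 1) (x 2) (x 3) (x 0) (x 4) +
      (G3 rel q3 (x 1) (x 2) (x 4) (x 0) (x 3) +
      (G3 rel q3 (x 1) (x 3) (x 4) (x 0) (x 2) +
      G3 rel q3 (x 2) (x 3) (x 4) (x 0) (x 1)))))))))) + (G1 rel q1 (x 0) (x 1) (x 2) (x 3) (x 4) +
      (G1 rel q1 (x 0) (x 1) (x 3) (x 2) (x 4) +
      (G1 rel q1 (x 0) (x 1) (x 4) (x 2) (x 3) +
      (G1 rel q1 (x 1) (x 0) (x 2) (x 3) (x 4) +
      (G1 rel q1 (x 1) (x 0) (x 3) (x 2) (x 4) +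
      (G1 rel q1 (x 1) (x 0) (x 4) (x 2) (x 3) +
      (G1 rel q1 (x 2) (x 0) (x 1) (x 3) (x 4) +
      (G1 rel q1 (x 2) (x 0) (x 3) (x 1) (x 4) +
      (G1 rel q1 (x 2) (x 0) (x 4) (x 1) (x 3) +
      (G1 rel q1 (x 3) (x 0) (x 1) (x 2) (x 4) +
      (G1 rel q1 (x 3) (x 0) (x 2) (x 1) (x 4) +
      (G1 rel q1 (x 3) (x 0) (x 4) (x 1) (x 2) +
      (G1 rel q1 (x 4) (x 0) (x 1) (x 2) (x 3) +
      (G1 rel q1 (x 4) (x 0) (x 2) (x 1) (x 3) +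
      G1 rel q1 (x 4) (x 0) (x 3) (x 1) (x 2))))))))))))))) ≤ Bd :=
  leafG_le q3 q1 Bd hA (rel (x 0) (x 1)) (rel (x 1) (x 0)) (rel (x 0) (x 2)) (rel (x 2) (x 0)) (rel (x 0) (x 3)) (rel (x 3) (x 0)) (rel (x 0) (x 4)) (rel (x 4) (x 0)) (rel (x 1) (x 2)) (rel (x 2) (x 1)) (rel (x 1) (x 3)) (rel (x 3) (x 1)) (rel (x 1) (x 4)) (rel (x 4) (x 1)) (rel (x 2) (x 3)) (rel (x 3) (x 2)) (rel (x 2) (x 4)) (rel (x 4) (x 2)) (rel (x 3) (x 4)) (rel (x 4) (x 3))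
    (h _ _) (h _ _) (h _ _) (h _ _) (h _ _) (h _ _) (h _ _) (h _ _) (h _ _) (h _ _) (by
    have z0 := hz (x 1) (x 2) (x 3) (x 4)
    have z1 := hz (x 0) (x 2) (x 3) (x 4)
    have z2 := hz (x 0) (x 1) (x 3) (x 4)
    have z3 := hz (x 0) (x 1) (x 2) (x 4)
    have z4 := hz (x 0) (x 1) (x 2) (x 3)
    unfold cyc
    rw [z0, z1, z2, z3, z4])

variable [Fintype V]

/-- five-fold weighted sum -/
noncomputable def E5 (μ : V → ℝ) (F : V → V → V → V → V → ℝ) : ℝ :=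
  E μ fun a => E μ fun b => E μ fun c => E μ fun d => E μ fun e => F a b c d e

theorem E5_eq (μ : V → ℝ) (F : V → V → V → V → V → ℝ) :
    ∑ x : Fin 5 → V, (∏ i, μ (x i)) * F (x 0) (x 1) (x 2) (x 3) (x 4) = E5 μ F := by
  rw [← Equiv.sum_comp (e5 V).symm]
  simp only [Fintype.sum_prod_type, E5, E, mul_sum, Fin.prod_univ_five]
  refine sum_congr rfl fun a _ => sum_congr rfl fun b _ => sum_congr rfl fun c _ =>
    sum_congr rfl fun d _ => sum_congr rfl fun e _ => ?_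
  show μ a * μ b * μ c * μ d * μ e * F a b c d e = _
  ring

theorem E5_perm (μ : V → ℝ) (F : V → V → V → V → V → ℝ) (g : Fin 5 → Fin 5)
    (hg : Function.Bijective g) :
    ∑ x : Fin 5 → V, (∏ i, μ (x i)) * F (x (g 0)) (x (g 1)) (x (g 2)) (x (g 3)) (x (g 4))
      = E5 μ F := by
  rw [← E5_eq]
  rw [← Equiv.sum_comp (Equiv.arrowCongr (Equiv.ofBijective g hg).symm (Equiv.refl V))
    (fun x => (∏ i, μ (x i)) * F (x 0) (x 1) (x 2) (x 3) (x 4))]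
  refine sum_congr rfl fun x _ => ?_
  have : ∏ i, μ (x (g i)) = ∏ i, μ (x i) :=
    Equiv.prod_comp (Equiv.ofBijective g hg) (fun i => μ (x i))
  rw [← this]
  rfl

theorem totalG (q3 : ℕ → ℕ → ℕ → ℕ → ℕ) (q1 : ℕ → ℕ → ℕ) (Bd : ℕ) (hA : AllChk q3 q1 Bd)
    (h : ∀ x y, Pr (rel x y) (rel y x)) (hz : NoC4 rel) (μ : V → ℝ) (hμ : ∀ x, 0 ≤ μ x)
    (h1 : ∑ x, μ x = 1) :
    10 * E5 μ (fun a b c d e => (G3 rel q3 a b c d e : ℝ))
      + 15 * E5 μ (fun a b c d e => (G1 rel q1 a b c d e : ℝ)) ≤ Bd := by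
  have f0 := E5_perm μ (fun a b c d e => (G3 rel q3 a b c d e : ℝ)) ![0, 1, 2, 3, 4] (by decide)
  have f1 := E5_perm μ (fun a b c d e => (G3 rel q3 a b c d e : ℝ)) ![0, 1, 3, 2, 4] (by decide)
  have f2 := E5_perm μ (fun a b c d e => (G3 rel q3 a b c d e : ℝ)) ![0, 1, 4, 2, 3] (by decide)
  have f3 := E5_perm μ (fun a b c d e => (G3 rel q3 a b c d e : ℝ)) ![0, 2, 3, 1, 4] (by decide)
  have f4 := E5_perm μ (fun a b c d e => (G3 rel q3 a b c d e : ℝ)) ![0, 2, 4, 1, 3] (by decide)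
  have f5 := E5_perm μ (fun a b c d e => (G3 rel q3 a b c d e : ℝ)) ![0, 3, 4, 1, 2] (by decide)
  have f6 := E5_perm μ (fun a b c d e => (G3 rel q3 a b c d e : ℝ)) ![1, 2, 3, 0, 4] (by decide)
  have f7 := E5_perm μ (fun a b c d e => (G3 rel q3 a b c d e : ℝ)) ![1, 2, 4, 0, 3] (by decide)
  have f8 := E5_perm μ (fun a b c d e => (G3 rel q3 a b c d e : ℝ)) ![1, 3, 4, 0, 2] (by decide)
  have f9 := E5_perm μ (fun a b c d e => (G3 rel q3 a b c d e : ℝ)) ![2, 3, 4, 0, 1] (by decide)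
  have g0 := E5_perm μ (fun a b c d e => (G1 rel q1 a b c d e : ℝ)) ![0, 1, 2, 3, 4] (by decide)
  have g1 := E5_perm μ (fun a b c d e => (G1 rel q1 a b c d e : ℝ)) ![0, 1, 3, 2, 4] (by decide)
  have g2 := E5_perm μ (fun a b c d e => (G1 rel q1 a b c d e : ℝ)) ![0, 1, 4, 2, 3] (by decide)
  have g3 := E5_perm μ (fun a b c d e => (G1 rel q1 a b c d e : ℝ)) ![1, 0, 2, 3, 4] (by decide)
  have g4 := E5_perm μ (fun a b c d e => (G1 rel q1 a b c d e : ℝ)) ![1, 0, 3, 2, 4] (by decide)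
  have g5 := E5_perm μ (fun a b c d e => (G1 rel q1 a b c d e : ℝ)) ![1, 0, 4, 2, 3] (by decide)
  have g6 := E5_perm μ (fun a b c d e => (G1 rel q1 a b c d e : ℝ)) ![2, 0, 1, 3, 4] (by decide)
  have g7 := E5_perm μ (fun a b c d e => (G1 rel q1 a b c d e : ℝ)) ![2, 0, 3, 1, 4] (by decide)
  have g8 := E5_perm μ (fun a b c d e => (G1 rel q1 a b c d e : ℝ)) ![2, 0, 4, 1, 3] (by decide)
  have g9 := E5_perm μ (fun a b c d e => (G1 rel q1 a b c d e : ℝ)) ![3, 0, 1, 2, 4] (by decide)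
  have g10 := E5_perm μ (fun a b c d e => (G1 rel q1 a b c d e : ℝ)) ![3, 0, 2, 1, 4] (by decide)
  have g11 := E5_perm μ (fun a b c d e => (G1 rel q1 a b c d e : ℝ)) ![3, 0, 4, 1, 2] (by decide)
  have g12 := E5_perm μ (fun a b c d e => (G1 rel q1 a b c d e : ℝ)) ![4, 0, 1, 2, 3] (by decide)
  have g13 := E5_perm μ (fun a b c d e => (G1 rel q1 a b c d e : ℝ)) ![4, 0, 2, 1, 3] (by decide)
  have g14 := E5_perm μ (fun a b c d e => (G1 rel q1 a b c d e : ℝ)) ![4, 0, 3, 1, 2] (by decide)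
  have c0 := E5_eq μ (fun _ _ _ _ _ => (Bd : ℝ))
  have c1 : E5 μ (fun _ _ _ _ _ => (Bd : ℝ)) = Bd := by simp only [E5, E_const h1]
  have key := Finset.sum_le_sum (s := Finset.univ) (fun (x : Fin 5 → V) _ =>
    mul_le_mul_of_nonneg_left ((Nat.cast_le (α := ℝ)).mpr (pointwiseG rel q3 q1 Bd hA h hz x))
      (Finset.prod_nonneg (s := Finset.univ) fun i _ => hμ (x i)))
  rw [c0, c1] at key
  simp only [Nat.cast_add, mul_add, Finset.sum_add_distrib] at key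
  have f0' : ∑ x : Fin 5 → V, (∏ i, μ (x i)) * (G3 rel q3 (x 0) (x 1) (x 2) (x 3) (x 4) : ℝ) = _ := f0
  have f1' : ∑ x : Fin 5 → V, (∏ i, μ (x i)) * (G3 rel q3 (x 0) (x 1) (x 3) (x 2) (x 4) : ℝ) = _ := f1
  have f2' : ∑ x : Fin 5 → V, (∏ i, μ (x i)) * (G3 rel q3 (x 0) (x 1) (x 4) (x 2) (x 3) : ℝ) = _ := f2
  have f3' : ∑ x : Fin 5 → V, (∏ i, μ (x i)) * (G3 rel q3 (x 0) (x 2) (x 3) (x 1) (x 4) : ℝ) = _ := f3
  have f4' : ∑ x : Fin 5 → V, (∏ i, μ (x i)) * (G3 rel q3 (x 0) (x 2) (x 4) (x 1) (x 3) : ℝ) = _ := f4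
  have f5' : ∑ x : Fin 5 → V, (∏ i, μ (x i)) * (G3 rel q3 (x 0) (x 3) (x 4) (x 1) (x 2) : ℝ) = _ := f5
  have f6' : ∑ x : Fin 5 → V, (∏ i, μ (x i)) * (G3 rel q3 (x 1) (x 2) (x 3) (x 0) (x 4) : ℝ) = _ := f6
  have f7' : ∑ x : Fin 5 → V, (∏ i, μ (x i)) * (G3 rel q3 (x 1) (x 2) (x 4) (x 0) (x 3) : ℝ) = _ := f7
  have f8' : ∑ x : Fin 5 → V, (∏ i, μ (x i)) * (G3 rel q3 (x 1) (x 3) (x 4) (x 0) (x 2) : ℝ) = _ := f8
  have f9' : ∑ x : Fin 5 → V, (∏ i, μ (x i)) * (G3 rel q3 (x 2) (x 3) (x 4) (x 0) (x 1) : ℝ) = _ := f9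
  have g0' : ∑ x : Fin 5 → V, (∏ i, μ (x i)) * (G1 rel q1 (x 0) (x 1) (x 2) (x 3) (x 4) : ℝ) = _ := g0
  have g1' : ∑ x : Fin 5 → V, (∏ i, μ (x i)) * (G1 rel q1 (x 0) (x 1) (x 3) (x 2) (x 4) : ℝ) = _ := g1
  have g2' : ∑ x : Fin 5 → V, (∏ i, μ (x i)) * (G1 rel q1 (x 0) (x 1) (x 4) (x 2) (x 3) : ℝ) = _ := g2
  have g3' : ∑ x : Fin 5 → V, (∏ i, μ (x i)) * (G1 rel q1 (x 1) (x 0) (x 2) (x 3) (x 4) : ℝ) = _ := g3
  have g4' : ∑ x : Fin 5 → V, (∏ i, μ (x i)) * (G1 rel q1 (x 1) (x 0) (x 3) (x 2) (x 4) : ℝ) = _ := g4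
  have g5' : ∑ x : Fin 5 → V, (∏ i, μ (x i)) * (G1 rel q1 (x 1) (x 0) (x 4) (x 2) (x 3) : ℝ) = _ := g5
  have g6' : ∑ x : Fin 5 → V, (∏ i, μ (x i)) * (G1 rel q1 (x 2) (x 0) (x 1) (x 3) (x 4) : ℝ) = _ := g6
  have g7' : ∑ x : Fin 5 → V, (∏ i, μ (x i)) * (G1 rel q1 (x 2) (x 0) (x 3) (x 1) (x 4) : ℝ) = _ := g7
  have g8' : ∑ x : Fin 5 → V, (∏ i, μ (x i)) * (G1 rel q1 (x 2) (x 0) (x 4) (x 1) (x 3) : ℝ) = _ := g8
  have g9' : ∑ x : Fin 5 → V, (∏ i, μ (x i)) * (G1 rel q1 (x 3) (x 0) (x 1) (x 2) (x 4) : ℝ) = _ := g9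
  have g10' : ∑ x : Fin 5 → V, (∏ i, μ (x i)) * (G1 rel q1 (x 3) (x 0) (x 2) (x 1) (x 4) : ℝ) = _ := g10
  have g11' : ∑ x : Fin 5 → V, (∏ i, μ (x i)) * (G1 rel q1 (x 3) (x 0) (x 4) (x 1) (x 2) : ℝ) = _ := g11
  have g12' : ∑ x : Fin 5 → V, (∏ i, μ (x i)) * (G1 rel q1 (x 4) (x 0) (x 1) (x 2) (x 3) : ℝ) = _ := g12
  have g13' : ∑ x : Fin 5 → V, (∏ i, μ (x i)) * (G1 rel q1 (x 4) (x 0) (x 2) (x 1) (x 3) : ℝ) = _ := g13
  have g14' : ∑ x : Fin 5 → V, (∏ i, μ (x i)) * (G1 rel q1 (x 4) (x 0) (x 3) (x 1) (x 2) : ℝ) = _ := g14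
  rw [f0', f1', f2', f3', f4', f5', f6', f7', f8', f9', g0', g1', g2', g3', g4', g5', g6', g7', g8', g9', g10', g11', g12', g13', g14'] at key
  linarith

theorem psdE (μ : V → ℝ) (s : Finset ℕ) (u : ℕ → V → ℝ) :
    0 ≤ E μ fun d => E μ fun e => ∑ k ∈ s, u k d * u k e := by
  simp only [E_sum, E_ml, E_mr]
  exact sum_nonneg fun k _ => mul_self_nonneg _

theorem psdE2 (μ : V → ℝ) (s : Finset ℕ) (u : ℕ → V → V → ℝ) :
    0 ≤ E μ fun b => E μ fun c => E μ fun d => E μ fun e => ∑ k ∈ s, u k b c * u k d e := by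
  simp only [E_sum, E_ml, E_mr]
  exact sum_nonneg fun k _ => mul_self_nonneg _

theorem lowG3 (TQ TL : ℕ) (hc : ∀ t < 7, ck3 TQ TL t = true) (w : ℕ → ℕ → ℕ → ℕ → ℕ)
    (h : ∀ x y, Pr (rel x y) (rel y x)) (μ : V → ℝ) (hμ : ∀ x, 0 ≤ μ x) (h1 : ∑ x, μ x = 1) :
    288230376151711744 + E5 μ (fun a b c d e => (G3 rel w a b c d e : ℝ)) ≤
      E5 μ (fun a b c d e => (G3 rel (fun c i j e => Nat.add (gq TQ (tt c) (sg c i) (sg c j)) (w c i j e)) a b c d e : ℝ)) := by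
  have hlt : ∀ x y, rel x y < 3 := fun x y => Pr_lt (h x y)
  have e0 : (288230376151711744 : ℝ) + E5 μ (fun a b c d e => (G3 rel w a b c d e : ℝ))
      = E5 μ (fun a b c d e => 288230376151711744 + (G3 rel w a b c d e : ℝ)) := by
    simp only [E5, E_add, E_const h1]
  rw [e0]
  refine E_le hμ fun a => E_le hμ fun b => E_le hμ fun c => ?_
  have hcd := cd_lt (hlt a b) (hlt a c) (hlt b c)
  have e2 : ∀ d e : V, (G3 rel (fun c i j e => Nat.add (gq TQ (tt c) (sg c i) (sg c j)) (w c i j e)) a b c d e : ℝ) =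
      ∑ k ∈ range 27, ((gl TL (tt (cd (rel a b) (rel a c) (rel b c))) (sg (cd (rel a b) (rel a c) (rel b c)) (cd (rel a d) (rel b d) (rel c d))) k : ℝ) - 134217728) *
        ((gl TL (tt (cd (rel a b) (rel a c) (rel b c))) (sg (cd (rel a b) (rel a c) (rel b c)) (cd (rel a e) (rel b e) (rel c e))) k : ℝ) - 134217728)
      + (288230376151711744 + (G3 rel w a b c d e : ℝ)) := by
    intro d e
    rw [← add_assoc, ← gq_eq TQ TL _ _ _ (hc _ (tt_lt _ hcd)) (sg_lt _ _ hcd (cd_lt (hlt _ _) (hlt _ _) (hlt _ _)))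
      (sg_lt _ _ hcd (cd_lt (hlt _ _) (hlt _ _) (hlt _ _))), ← Nat.cast_add]
    rfl
  simp only [e2]
  have := psdE μ (range 27) (fun k d => (gl TL (tt (cd (rel a b) (rel a c) (rel b c))) (sg (cd (rel a b) (rel a c) (rel b c)) (cd (rel a d) (rel b d) (rel c d))) k : ℝ) - 134217728)
  simp only [E_add] at this ⊢
  linarith

theorem lowG1 (T1 TL : ℕ) (hc : ck1 T1 TL = true) (w : ℕ → ℕ → ℕ)
    (h : ∀ x y, Pr (rel x y) (rel y x)) (μ : V → ℝ) (hμ : ∀ x, 0 ≤ μ x) (h1 : ∑ x, μ x = 1) :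
    288230376151711744 + E5 μ (fun a b c d e => (G1 rel w a b c d e : ℝ)) ≤
      E5 μ (fun a b c d e => (G1 rel (fun i j => Nat.add (hq T1 i j) (w i j)) a b c d e : ℝ)) := by
  have hlt : ∀ x y, rel x y < 3 := fun x y => Pr_lt (h x y)
  have e0 : (288230376151711744 : ℝ) + E5 μ (fun a b c d e => (G1 rel w a b c d e : ℝ))
      = E5 μ (fun a b c d e => 288230376151711744 + (G1 rel w a b c d e : ℝ)) := by
    simp only [E5, E_add, E_const h1]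
  rw [e0]
  refine E_le hμ fun a => ?_
  have e2 : ∀ b c d e : V, (G1 rel (fun i j => Nat.add (hq T1 i j) (w i j)) a b c d e : ℝ) =
      ∑ k ∈ range 15, ((hl TL (cd (rel a b) (rel a c) (rel b c)) k : ℝ) - 134217728) *
        ((hl TL (cd (rel a d) (rel a e) (rel d e)) k : ℝ) - 134217728)
      + (288230376151711744 + (G1 rel w a b c d e : ℝ)) := by
    intro b c d e
    rw [← add_assoc, ← hq_eq T1 TL _ _ hc (cd_lt (hlt _ _) (hlt _ _) (hlt _ _))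
      (cd_lt (hlt _ _) (hlt _ _) (hlt _ _)), ← Nat.cast_add]
    rfl
  simp only [e2]
  have := psdE2 μ (range 15) (fun k b c => (hl TL (cd (rel a b) (rel a c) (rel b c)) k : ℝ) - 134217728)
  simp only [E_add] at this ⊢
  linarith

end Pool.Agent.H301Z.FdF
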