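import Pool.Agent.H301Z.FdF.Core

set_option autoImplicit false
open Finset

namespace Pool.Agent.H301Z.FdF

/-- square of the positive part -/
noncomputable def pp (t : ℝ) : ℝ := max t 0 ^ 2

theorem pp_nonneg (t : ℝ) : 0 ≤ pp t := sq_nonneg _

theorem pp_mono {s t : ℝ} (h : s ≤ t) : pp s ≤ pp t :=
  pow_le_pow_left₀ (le_max_right _ _) (max_le_max h le_rfl) 2

theorem pp_of {s : ℝ} (h : 0 ≤ s) : pp s = s ^ 2 := by rw [pp, max_eq_left h]

/-- the cubic form of the greedy removal bound -/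
noncomputable def hh (u v : ℝ) : ℝ := (u ^ 2 * v + u * v ^ 2) / 2 - (u ^ 3 + v ^ 3) / 6

theorem hh_symm (u v : ℝ) : hh u v = hh v u := by unfold hh; ring

theorem hh_step (u v m : ℝ) (hm : 0 ≤ m) : hh u v ≤ hh u (v - m) + m * u ^ 2 := by
  have e : hh u (v - m) + m * u ^ 2 - hh u v = m * ((u - v + m / 2) ^ 2 / 2 + m ^ 2 / 24) := by
    unfold hh; ring
  have : 0 ≤ m * ((u - v + m / 2) ^ 2 / 2 + m ^ 2 / 24) := by positivity
  linarith

theorem hh_zero (u : ℝ) (hu : 0 ≤ u) : hh u 0 ≤ 0 := by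
  unfold hh
  have : 0 ≤ u ^ 3 := by positivity
  linarith

namespace OG
variable {V : Type} [Fintype V] [DecidableEq V] (G : OG V)

/-- statement of the removal bound -/
def YS (δ : ℝ) (f g : V → ℝ) : Prop :=
  ∀ u v : ℝ, 0 ≤ u → u ≤ E g (fun _ => 1) → 0 ≤ v → v ≤ E f (fun _ => 1) →
    hh u v ≤ E f (fun x => pp (u + δ - E g (G.r x))) + E g (fun y => pp (v + δ - E f (G.r y)))

omit [DecidableEq V] in
theorem YS_symm {δ : ℝ} {f g : V → ℝ} (h : G.YS δ f g) : G.YS δ g f := by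
  intro u v h1 h2 h3 h4
  have := h v u h3 h4 h1 h2
  rw [hh_symm]
  linarith

theorem YS_step {δ : ℝ} {f g : V → ℝ} (hf : ∀ x, 0 ≤ f x) (hg : ∀ x, 0 ≤ g x) (x : V)
    (hd : E g (G.r x) < δ) (ih : G.YS δ (fun z => f z - f x * dl x z) g) : G.YS δ f g := by
  intro u v h1 h2 h3 h4
  have hx := hf x
  have k1 : u ^ 2 ≤ pp (u + δ - E g (G.r x)) := by
    rw [← pp_of h1]; exact pp_mono (by linarith)
  have k2 : f x * u ^ 2 ≤ f x * pp (u + δ - E g (G.r x)) := mul_le_mul_of_nonneg_left k1 hx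
  by_cases hv : v ≤ f x
  · have a1 := hh_step u v v h3
    rw [sub_self] at a1
    have a2 := hh_zero u h1
    have a3 := le_E hf (fun x => pp_nonneg (u + δ - E g (G.r x))) x
    have a4 := E_nonneg hg fun y => pp_nonneg (v + δ - E f (G.r y))
    have a5 : v * u ^ 2 ≤ f x * u ^ 2 := mul_le_mul_of_nonneg_right hv (sq_nonneg _)
    linarith
  · push Not at hv
    have a0 := ih u (v - f x) h1 h2 (by linarith) (by rw [E_wsub1]; linarith)
    rw [E_wsub1] at a0
    have a1 := hh_step u v (f x) hx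
    have a2 : E g (fun y => pp (v - f x + δ - E (fun z => f z - f x * dl x z) (G.r y)))
        ≤ E g (fun y => pp (v + δ - E f (G.r y))) := by
      refine E_le hg fun y => pp_mono ?_
      rw [E_wsub1]
      have := mul_le_of_le_one_right hx (G.r_le y x)
      linarith
    linarith

theorem T_del {f g : V → ℝ} (hf : ∀ x, 0 ≤ f x) (hg : ∀ x, 0 ≤ g x) (x : V) :
    G.T (fun z => f z - f x * dl x z) g ≤ G.T f g := by
  have h := G.T_sub f g x x (f x) 0
  have e : (fun z => g z - 0 * dl x z) = g := by funext z; ring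
  rw [e] at h
  rw [h]
  have n1 := E_nonneg hf fun z => sub_nonneg.mpr (G.n_le x z)
  have n2 := E_nonneg hg fun z => G.n_nonneg x z
  have := mul_nonneg (hf x) (add_nonneg n1 n2)
  linarith

theorem lemY {δ : ℝ} (hδ : 0 < δ) (N : ℕ) : ∀ f g : V → ℝ, (∀ x, 0 ≤ f x) → (∀ x, 0 ≤ g x) →
    sz f + sz g ≤ N → G.T f g < 19 / 100 * δ ^ 2 → G.YS δ f g := by
  have base : ∀ f g : V → ℝ, (∀ x, 0 ≤ f x) → (∀ x, 0 ≤ g x) → (¬ ∃ x, 0 < f x) → G.YS δ f g := by
    intro f g hf hg hn u v h1 h2 h3 h4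
    have hv : v = 0 := by
      by_contra hv
      exact hn (exists_pos hf (lt_of_lt_of_le (lt_of_le_of_ne h3 (Ne.symm hv)) h4))
    rw [hv]
    have a2 := hh_zero u h1
    have a3 := E_nonneg hf (fun x => pp_nonneg (u + δ - E g (G.r x)))
    have a4 := E_nonneg hg fun y => pp_nonneg (0 + δ - E f (G.r y))
    linarith
  induction N with
  | zero =>
    intro f g hf hg hN _
    refine base f g hf hg ?_
    rintro ⟨x, hx⟩
    have : 0 < sz f := card_pos.mpr ⟨x, by simp [hx]⟩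
    omega
  | succ N ih =>
    intro f g hf hg hN hT
    by_cases hn : ∃ x, 0 < f x
    swap
    · exact base f g hf hg hn
    by_cases h1 : ∃ x, 0 < f x ∧ E g (G.r x) < δ
    · obtain ⟨x, hx, hd⟩ := h1
      refine G.YS_step hf hg x hd (ih _ _ (sub_nonneg' hf x le_rfl) hg ?_ ?_)
      · have := sz_lt x hx; omega
      · exact (G.T_del hf hg x).trans_lt hT
    by_cases h2 : ∃ x, 0 < g x ∧ E f (G.r x) < δ
    · obtain ⟨x, hx, hd⟩ := h2
      refine G.YS_symm (G.YS_step hg hf x hd (G.YS_symm (ih _ _ hf (sub_nonneg' hg x le_rfl) ?_ ?_)))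
      · have := sz_lt x hx; omega
      · rw [G.T_symm] at hT ⊢
        exact (G.T_del hg hf x).trans_lt hT
    push Not at h1 h2
    have := G.core _ f g hf hg le_rfl δ hδ hn h1 h2
    linarith

end OG
end Pool.Agent.H301Z.FdF
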