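import Pool.Agent.H301Z.FdF.Final

set_option autoImplicit false
open Finset

namespace Pool.Agent.H301Z.FdF

/-- indicator of equality of two labels -/
def sm (p q : Fin 3) : ℤ := if p = q then 1 else 0

theorem sm_self (p : Fin 3) : sm p p = 1 := by simp [sm]

theorem sm_comm (p q : Fin 3) : sm p q = sm q p := by
  unfold sm; by_cases h : p = q
  · simp [h]
  · simp [h, Ne.symm h]

theorem sm01 (p q : Fin 3) : (sm p q : ℝ) = 0 ∨ (sm p q : ℝ) = 1 := by
  unfold sm; by_cases h : p = q <;> simp [h]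

theorem sm_part {V : Type} (P : V → Fin 3) :
    IsPart (fun x => (sm (P x) 0 : ℝ)) (fun x => (sm (P x) 1 : ℝ)) (fun x => (sm (P x) 2 : ℝ)) := by
  intro x
  dsimp only
  generalize P x = p
  fin_cases p <;> simp [sm]

theorem sm_isS {V : Type} (P : V → Fin 3) :
    IsS (fun x => (sm (P x) 0 : ℝ)) (fun x => (sm (P x) 1 : ℝ)) (fun x => (sm (P x) 2 : ℝ))
      (fun x y => (sm (P x) (P y) : ℝ)) := by
  intro x y
  dsimp only
  generalize P x = p
  generalize P y = q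
  fin_cases p <;> fin_cases q <;> simp [sm]

namespace OG

variable {V : Type} [Fintype V] [DecidableEq V] (G : OG V)

/-- distance of the non-adjacency relation from a partition -/
noncomputable def WW (μ : V → ℝ) (P : V → Fin 3) : ℝ :=
  E μ fun x => E μ fun y => (G.n x y - (sm (P x) (P y) : ℝ)) ^ 2

omit [DecidableEq V] in
theorem WW_eq (μ : V → ℝ) (P : V → Fin 3) :
    G.WW μ P = E μ (fun u => G.wi μ (fun x y => (sm (P x) (P y) : ℝ)) u)
      + E μ (fun u => G.wo μ (fun x y => (sm (P x) (P y) : ℝ)) u) := by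
  unfold WW wi wo
  simp only [← E_add]
  refine E_congr _ fun x => E_congr _ fun y => ?_
  rcases G.n01 x y with a | a <;> rcases sm01 (P x) (P y) with b | b <;> rw [a, b] <;> norm_num

theorem local_opt {μ : V → ℝ} (hμ : ∀ x, 0 ≤ μ x) (P : V → Fin 3)
    (hP : ∀ Q, G.WW μ P ≤ G.WW μ Q) (u : V) (hu : 0 < μ u) (j : Fin 3) :
    E μ (fun y => (sm (P u) (P y) : ℝ) * (1 - 2 * G.n u y))
      ≤ E μ (fun y => (sm (P y) j : ℝ) * (1 - 2 * G.n u y)) := by
  obtain ⟨φ, hφ⟩ : ∃ φ : V → ℝ, ∀ y, φ y = (1 - dl u y) *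
      ((G.n u y - (sm j (P y) : ℝ)) ^ 2 - (G.n u y - (sm (P u) (P y) : ℝ)) ^ 2) := ⟨_, fun _ => rfl⟩
  have e1 : G.WW μ (Function.update P u j) = E μ fun x => E μ fun y =>
      (G.n x y - (sm (P x) (P y) : ℝ)) ^ 2 + (dl u x * φ y + φ x * dl u y) := by
    refine E_congr _ fun x => E_congr _ fun y => ?_
    rw [hφ, hφ]
    by_cases hx : x = u <;> by_cases hy : y = u
    · subst hx; subst hy
      rw [dl_self, sm_self, sm_self]; ring
    · subst hx
      rw [dl_self, dl_ne hy, Function.update_self, Function.update_of_ne hy]; ring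
    · subst hy
      rw [dl_self, dl_ne hx, Function.update_self, Function.update_of_ne hx, G.nsymm y x,
        sm_comm j (P x), sm_comm (P y) (P x)]; ring
    · rw [dl_ne hx, dl_ne hy, Function.update_of_ne hx, Function.update_of_ne hy]; ring
  have e2 : E μ (fun x => dl u x) = μ u := by
    have := E_dl μ u (fun _ => 1)
    simpa using this
  have h := hP (Function.update P u j)
  rw [e1] at h
  simp only [E_add, E_ml, E_mr, e2] at h
  have h2 : 0 ≤ μ u * E μ φ := by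
    unfold WW at h
    have e3 : E μ (fun x => φ x) = E μ φ := rfl
    rw [e3] at h
    linarith
  have h3 : 0 ≤ E μ φ := nonneg_of_mul_nonneg_right h2 hu
  have h4 : E μ φ ≤ E μ (fun y => (sm (P y) j : ℝ) * (1 - 2 * G.n u y)
      - (sm (P u) (P y) : ℝ) * (1 - 2 * G.n u y)) := by
    refine E_le hμ fun y => ?_
    rw [hφ, sm_comm j]
    by_cases hy : y = u
    · subst hy
      rw [dl_self, sm_self, G.n_self]
      rcases sm01 (P y) j with a | a <;> rw [a] <;> norm_num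
    · rw [dl_ne hy]
      rcases sm01 (P y) j with a | a <;> rcases sm01 (P u) (P y) with b | b <;>
        rcases G.n01 u y with c | c <;> rw [a, b, c] <;> norm_num
  rw [E_sub] at h4
  linarith

omit [Fintype V] [DecidableEq V] in
theorem e_swap12 (x y z : V) : G.e x y z = G.e y x z := by
  unfold e; rw [G.nsymm y x]; ring

omit [Fintype V] [DecidableEq V] in
theorem e_swap23 (x y z : V) : G.e x y z = G.e x z y := by
  unfold e; rw [G.nsymm z y]; ring

omit [Fintype V] [DecidableEq V] in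
theorem e_diag (u z : V) : G.e u u z = G.n u z + G.r z u := by
  unfold e
  rw [G.n_self, G.r_self]
  rcases G.n01 u z with a | a <;> rcases G.r01 z u with b | b <;> rw [a, b] <;> norm_num

theorem rho_pert (μ : V → ℝ) (u : V) (s t : ℝ) :
    G.rho (fun x => s * μ x - t * dl u x) = s ^ 3 * G.rho μ - 3 * s ^ 2 * t * G.DD μ u
      + 3 * s * t ^ 2 * E μ (fun z => G.e u u z) - t ^ 3 := by
  have a1 : E μ (fun x => E μ fun y => G.e x y u) = G.DD μ u :=
    E_congr _ fun x => E_congr _ fun y => by rw [G.e_swap23, G.e_swap12]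
  have a2 : E μ (fun x => E μ fun y => G.e x u y) = G.DD μ u :=
    E_congr _ fun x => E_congr _ fun y => by rw [G.e_swap12]
  have a3 : E μ (fun x => G.e x u u) = E μ (fun z => G.e u u z) :=
    E_congr _ fun x => by rw [G.e_swap12, G.e_swap23]
  have a4 : E μ (fun x => G.e u x u) = E μ (fun z => G.e u u z) :=
    E_congr _ fun x => by rw [G.e_swap23]
  have a5 : G.e u u u = 1 := by rw [G.e_diag, G.n_self, G.r_self]; norm_num
  have a6 : E μ (fun x => E μ fun y => G.e u x y) = G.DD μ u := rfl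
  have a7 : E μ (fun w => E μ (fun x => E μ fun y => G.e w x y)) = G.rho μ := rfl
  conv_lhs => unfold rho DD
  simp only [E_wsub, E_sub, E_ml]
  rw [a1, a2, a3, a4, a5, a6, a7]
  ring

omit [DecidableEq V] in
theorem DD_nonneg {μ : V → ℝ} (hμ : ∀ x, 0 ≤ μ x) (u : V) : 0 ≤ G.DD μ u := by
  rw [G.DD_eq]
  have := G.p1_nonneg hμ u
  have : 0 ≤ E μ (fun y => G.r y u * G.dg μ y) :=
    E_nonneg hμ fun y => mul_nonneg (G.r_nonneg _ _) (E_nonneg hμ fun z => G.r_nonneg _ _)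
  positivity

theorem kkt {μ : V → ℝ} (hμ : ∀ x, 0 ≤ μ x) (h1 : ∑ x, μ x = 1)
    (hmin : ∀ ν : V → ℝ, (∀ x, 0 ≤ ν x) → ∑ x, ν x = 1 → G.rho μ ≤ G.rho ν) (u : V) (hu : 0 < μ u) :
    G.DD μ u ≤ G.rho μ := by
  by_contra hh
  push Not at hh
  obtain ⟨t, t0, t1, t2, t3⟩ : ∃ t : ℝ, 0 < t ∧ t ≤ μ u ∧ t ≤ 1 ∧ t ≤ (G.DD μ u - G.rho μ) / 4 :=
    ⟨min (μ u) (min 1 ((G.DD μ u - G.rho μ) / 4)), lt_min hu (lt_min one_pos (by linarith)),
      min_le_left _ _, (min_le_right _ _).trans (min_le_left _ _),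
      (min_le_right _ _).trans (min_le_right _ _)⟩
  have h := hmin (fun x => (1 + t) * μ x - t * dl u x) (by
      intro x
      have := mul_nonneg t0.le (hμ x)
      by_cases hx : x = u
      · subst hx; rw [dl_self]; linarith
      · rw [dl_ne hx]; have := hμ x; linarith) (by
      rw [sum_sub_distrib, ← mul_sum, ← mul_sum, h1]
      simp [dl])
  rw [G.rho_pert] at h
  have b1 : E μ (fun z => G.e u u z) ≤ 1 := by
    rw [← E_const h1 1]
    refine E_le hμ fun z => ?_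
    have := G.tot u z
    have := G.r_nonneg u z
    rw [G.e_diag]; linarith
  have b2 := G.DD_nonneg hμ u
  obtain ⟨D, hD⟩ : ∃ D, D = G.DD μ u := ⟨_, rfl⟩
  obtain ⟨ρ, hρ⟩ : ∃ ρ, ρ = G.rho μ := ⟨_, rfl⟩
  obtain ⟨D2, hD2⟩ : ∃ D2, D2 = E μ (fun z => G.e u u z) := ⟨_, rfl⟩
  rw [← hD, ← hρ, ← hD2] at h
  rw [← hD, ← hρ] at hh t3
  rw [← hD2] at b1
  rw [← hD] at b2
  have c1 : 0 ≤ t * ((3 + 3 * t + t ^ 2) * ρ - 3 * (1 + t) ^ 2 * D + 3 * (1 + t) * t * D2 - t ^ 2) := by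
    linarith
  have c2 := nonneg_of_mul_nonneg_right c1 t0
  have c3 : (3 * t + t ^ 2) * ρ ≤ (3 * t + t ^ 2) * D :=
    mul_le_mul_of_nonneg_left hh.le (by positivity)
  have c4 : 3 * (1 + t) * t * D2 ≤ 3 * (1 + t) * t * 1 :=
    mul_le_mul_of_nonneg_left b1 (by positivity)
  have c5 : 0 ≤ t * D := by positivity
  have c6 : 0 ≤ t ^ 2 * D := by positivity
  have c7 : t * t ≤ t * 1 := mul_le_mul_of_nonneg_left t2 t0.le
  nlinarith

omit [DecidableEq V] in
theorem exists_min (ν : V → ℝ) (hν : ∀ x, 0 ≤ ν x) (h1 : ∑ x, ν x = 1) :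
    ∃ μ : V → ℝ, (∀ x, 0 ≤ μ x) ∧ ∑ x, μ x = 1 ∧
      ∀ ν : V → ℝ, (∀ x, 0 ≤ ν x) → ∑ x, ν x = 1 → G.rho μ ≤ G.rho ν := by
  have hc : Continuous fun μ : V → ℝ => G.rho μ := by
    unfold rho DD E
    fun_prop
  obtain ⟨μ, hμ, hm⟩ := (isCompact_stdSimplex ℝ V).exists_isMinOn ⟨ν, hν, h1⟩ hc.continuousOn
  exact ⟨μ, hμ.1, hμ.2, fun ν a b => hm (show ν ∈ stdSimplex ℝ V from ⟨a, b⟩)⟩

/-- reduction of the density bound to three numerical facts -/
theorem main_of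
    (S1 : ∀ μ : V → ℝ, (∀ x, 0 ≤ μ x) → ∑ x, μ x = 1 → G.rho μ < 4 / 9 →
      1 / 3 - 64 / 10000 ≤ G.db μ)
    (S2 : ∀ μ : V → ℝ, (∀ x, 0 ≤ μ x) → ∑ x, μ x = 1 → G.rho μ < 4 / 9 →
      E μ (fun u => G.dg μ u ^ 2) - G.db μ ^ 2 ≤ 18 / 100000)
    (S3 : ∀ μ : V → ℝ, (∀ x, 0 ≤ μ x) → ∑ x, μ x = 1 → G.rho μ < 4 / 9 →
      ∃ P, G.WW μ P ≤ 5 / 1000)
    (ν : V → ℝ) (hν : ∀ x, 0 ≤ ν x) (h1 : ∑ x, ν x = 1) : 4 / 9 ≤ G.rho ν := by
  by_contra hh
  push Not at hh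
  obtain ⟨μ, hμ, m1, hm⟩ := G.exists_min ν hν h1
  have hρ : G.rho μ < 4 / 9 := (hm ν hν h1).trans_lt hh
  obtain ⟨P0, hP0⟩ := S3 μ hμ m1 hρ
  obtain ⟨P, -, hP⟩ := exists_min_image univ (G.WW μ) ⟨P0, mem_univ _⟩
  have hP' : ∀ Q, G.WW μ P ≤ G.WW μ Q := fun Q => hP Q (mem_univ _)
  exact Ctx.false (G := G) ⟨hμ, m1, hρ, G.kkt hμ m1 hm, S1 μ hμ m1 hρ, S2 μ hμ m1 hρ, sm_part P,
    sm_isS P, by rw [← G.WW_eq]; exact (hP' P0).trans hP0,
    fun u hu => G.local_opt hμ P hP' u hu 0, fun u hu => G.local_opt hμ P hP' u hu 1,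
    fun u hu => G.local_opt hμ P hP' u hu 2⟩

end OG
end Pool.Agent.H301Z.FdF
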